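import Mathlib

set_option autoImplicit false

namespace Pool.Agent.Helper43.Mesh

attribute [local instance] Matrix.seminormedAddCommGroup

/-- Siegel's lemma for `n + 1` integer vectors of length `n` with entries bounded by `L`. -/
lemma siegel (n : ℕ) (hn : 0 < n) (L : ℕ) (hL : 1 ≤ L) (R : Fin (n + 1) → Fin n → ℤ)
    (hR : ∀ t i, |R t i| ≤ (L : ℤ)) :
    ∃ v : Fin (n + 1) → ℤ, v ≠ 0 ∧ (∀ t, |v t| ≤ ((((n + 1) * L) ^ n : ℕ) : ℤ)) ∧
      ∀ i, ∑ t, v t * R t i = 0 := by
  classical
  let A : Matrix (Fin n) (Fin (n + 1)) ℤ := fun i t => R t i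
  obtain ⟨v, hv0, hAv, hnorm⟩ := Int.Matrix.exists_ne_zero_int_vec_norm_le A (by simp) (by simpa using hn)
  refine ⟨v, hv0, ?_, ?_⟩
  · intro t
    have h1 : ‖v t‖ ≤ ‖v‖ := norm_le_pi_norm v t
    have hA : max 1 ‖A‖ ≤ (L : ℝ) := by
      apply max_le
      · exact_mod_cast hL
      · rw [Matrix.norm_le_iff (by positivity)]
        intro i j
        have := hR j i
        rw [Int.norm_eq_abs]
        exact_mod_cast this
    have h2 : ‖v‖ ≤ (((n : ℝ) + 1) * L) ^ (n : ℝ) := by
      refine hnorm.trans ?_
      have e1 : ((Fintype.card (Fin n) : ℝ) / ((Fintype.card (Fin (n + 1)) : ℝ) - (Fintype.card (Fin n) : ℝ))) = (n : ℝ) := by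
        simp
      rw [e1]
      apply Real.rpow_le_rpow
      · have : 0 ≤ max 1 ‖A‖ := le_trans zero_le_one (le_max_left _ _)
        positivity
      · simp only [Fintype.card_fin]
        push_cast
        apply mul_le_mul_of_nonneg_left hA (by positivity)
      · positivity
    rw [Real.rpow_natCast] at h2
    have h3 : ‖v t‖ ≤ (((n : ℝ) + 1) * L) ^ n := h1.trans h2
    rw [Int.norm_eq_abs] at h3
    exact_mod_cast h3
  · intro i
    have := congrFun hAv i
    simp only [Matrix.mulVec, dotProduct, Pi.zero_apply] at this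
    rw [← this]
    apply Finset.sum_congr rfl
    intro t _
    exact mul_comm _ _

/-- Coordinates in `S` determined by the others. -/
lemma card_mul_pow_le {ι : Type*} [Fintype ι] [DecidableEq ι] (q : ℕ) (Y : Finset (ι → Fin q))
    (S : Finset ι) (h : ∀ y ∈ Y, ∀ y' ∈ Y, (∀ a, a ∉ S → y a = y' a) → y = y') :
    Y.card * q ^ S.card ≤ q ^ Fintype.card ι := by
  classical
  have h1 : Y.card ≤ Fintype.card ({a // a ∉ S} → Fin q) := by
    rw [← Finset.card_univ]
    apply Finset.card_le_card_of_injOn (fun y => fun a => y a.1) (by intro; simp)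
    intro y hy y' hy' hyy
    apply h y hy y' hy'
    intro a ha
    exact congrFun hyy ⟨a, ha⟩
  have h2 : Fintype.card ({a // a ∉ S} → Fin q) = q ^ (Fintype.card ι - S.card) := by
    rw [Fintype.card_fun, Fintype.card_fin]
    congr 1
    have := Fintype.card_subtype_compl (fun a => a ∈ S)
    rw [this]
    simp
  rw [h2] at h1
  calc Y.card * q ^ S.card ≤ q ^ (Fintype.card ι - S.card) * q ^ S.card := by gcongr
    _ = q ^ Fintype.card ι := by
      rw [← pow_add]
      congr 1
      have : S.card ≤ Fintype.card ι := Finset.card_le_univ S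
      omega

/-- Existence of a small basis of rows. -/
lemma exists_basis {ι : Type*} [Fintype ι] [DecidableEq ι] (n : ℕ) (hn : 0 < n) (C : Finset ι)
    (R : ι → Fin n → ℤ) :
    ∃ B : Finset ι, B ⊆ C ∧ B.card ≤ n ∧ ∀ t ∈ C, t ∉ B → ∃ v : ι → ℤ,
      (∀ a, a ∉ B → a ≠ t → v a = 0) ∧ v t ≠ 0 ∧ ∀ i, ∑ a, v a * R a i = 0 := by
  classical
  let P : Finset ι → Prop := fun B => ∀ v : ι → ℤ, (∀ a, a ∉ B → v a = 0) →
    (∀ i, ∑ a, v a * R a i = 0) → v = 0
  have hP0 : P ∅ := by
    intro v hv _
    funext a
    exact hv a (by simp)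
  have hPcard : ∀ B, P B → B.card ≤ n := by
    intro B hB
    by_contra hlt
    push Not at hlt
    obtain ⟨B', hB'B, hB'card⟩ := Finset.exists_subset_card_eq (show n + 1 ≤ B.card from hlt)
    let e : Fin (n + 1) ≃ B' := (Finset.equivFinOfCardEq hB'card).symm
    obtain ⟨L, hL1, hL⟩ : ∃ L : ℕ, 1 ≤ L ∧ ∀ a i, |R a i| ≤ (L : ℤ) := by
      refine ⟨1 + ∑ a, ∑ i, (R a i).natAbs, by omega, ?_⟩
      intro a i
      have h1 : (R a i).natAbs ≤ ∑ i, (R a i).natAbs :=
        Finset.single_le_sum (f := fun i => (R a i).natAbs) (fun _ _ => Nat.zero_le _) (Finset.mem_univ i)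
      have h2 : ∑ i, (R a i).natAbs ≤ ∑ a, ∑ i, (R a i).natAbs :=
        Finset.single_le_sum (f := fun a => ∑ i, (R a i).natAbs) (fun _ _ => Nat.zero_le _) (Finset.mem_univ a)
      rw [Int.abs_eq_natAbs]
      omega
    obtain ⟨v, hv0, _, hv⟩ := siegel n hn L hL1 (fun t i => R (e t).1 i) (fun t i => hL _ _)
    let w : ι → ℤ := fun a => if h : a ∈ B' then v (e.symm ⟨a, h⟩) else 0
    have hw : w = 0 := by
      apply hB w
      · intro a ha
        have : a ∉ B' := fun h => ha (hB'B h)
        simp [w, this]
      · intro i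
        rw [← hv i]
        have : ∑ a, w a * R a i = ∑ a ∈ B', w a * R a i := by
          symm
          apply Finset.sum_subset (Finset.subset_univ _)
          intro a _ ha
          simp [w, ha]
        rw [this, ← Finset.sum_coe_sort B' (fun a => w a * R a i)]
        rw [← Equiv.sum_comp e]
        apply Finset.sum_congr rfl
        intro t _
        have : w (e t).1 = v t := by
          have h := (e t).2
          simp only [w, h, dif_pos]
          simp
        rw [this]
    apply hv0
    funext t
    have h1 : w (e t).1 = v t := by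
      have h := (e t).2
      simp only [w, h, dif_pos]
      simp
    rw [← h1, hw]
    rfl
  obtain ⟨B, hBmem, hBmax⟩ := Finset.exists_max_image (C.powerset.filter P) Finset.card
    ⟨∅, by simp [hP0]⟩
  rw [Finset.mem_filter, Finset.mem_powerset] at hBmem
  refine ⟨B, hBmem.1, hPcard B hBmem.2, ?_⟩
  intro t htC htB
  have hnot : ¬ P (insert t B) := by
    intro hP
    have := hBmax (insert t B) (by
      rw [Finset.mem_filter, Finset.mem_powerset]
      exact ⟨Finset.insert_subset htC hBmem.1, hP⟩)
    rw [Finset.card_insert_of_notMem htB] at this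
    omega
  simp only [P] at hnot
  push Not at hnot
  obtain ⟨v, hv1, hv2, hv3⟩ := hnot
  refine ⟨v, ?_, ?_, hv2⟩
  · intro a ha hat
    apply hv1
    simp [ha, hat]
  · intro hvt
    apply hv3
    apply hBmem.2 v _ hv2
    intro a ha
    by_cases hat : a = t
    · rw [hat]; exact hvt
    · exact hv1 a (by simp [ha, hat])

/-- number of integer vectors of small `l1` norm -/
noncomputable def rows (n L : ℕ) : Finset (Fin n → ℤ) :=
  (Fintype.piFinset (fun _ : Fin n => Finset.Icc (-(L : ℤ)) (L : ℤ))).filter
    (fun r => ∑ i, |r i| ≤ (L : ℤ))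

lemma mem_rows (n L : ℕ) (r : Fin n → ℤ) : r ∈ rows n L ↔ ∑ i, |r i| ≤ (L : ℤ) := by
  unfold rows
  rw [Finset.mem_filter]
  constructor
  · exact fun h => h.2
  · intro h
    refine ⟨?_, h⟩
    rw [Fintype.mem_piFinset]
    intro i
    rw [Finset.mem_Icc, ← abs_le]
    exact (Finset.single_le_sum (f := fun i => |r i|) (fun _ _ => abs_nonneg _) (Finset.mem_univ i)).trans h

lemma card_rows (n L : ℕ) : (rows n L).card ≤ (2 * n + 1) ^ L := by
  classical
  induction L with
  | zero =>
    simp only [pow_zero]
    rw [Finset.card_le_one]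
    intro a ha b hb
    rw [mem_rows] at ha hb
    have key : ∀ r : Fin n → ℤ, ∑ i, |r i| ≤ ((0 : ℕ) : ℤ) → r = 0 := by
      intro r hr
      funext i
      have := (Finset.single_le_sum (f := fun i => |r i|) (fun _ _ => abs_nonneg _) (Finset.mem_univ i)).trans hr
      simp only [Nat.cast_zero] at this
      have h0 : |r i| = 0 := le_antisymm this (abs_nonneg _)
      simpa using h0
    rw [key a ha, key b hb]
  | succ L ih =>
    let E : Finset (Fin n → ℤ) := insert 0 ((Finset.univ : Finset (Fin n × Bool)).image
      (fun p => Pi.single p.1 (if p.2 then (1 : ℤ) else -1)))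
    have hE : E.card ≤ 2 * n + 1 := by
      refine (Finset.card_insert_le _ _).trans ?_
      have := (Finset.card_image_le (s := (Finset.univ : Finset (Fin n × Bool)))
        (f := fun p => (Pi.single p.1 (if p.2 then (1 : ℤ) else -1) : Fin n → ℤ)))
      simp only [Finset.card_univ, Fintype.card_prod, Fintype.card_fin, Fintype.card_bool] at this
      omega
    have hsub : rows n (L + 1) ⊆ (E ×ˢ rows n L).image (fun p => p.1 + p.2) := by
      intro r hr
      rw [mem_rows] at hr
      rw [Finset.mem_image]
      by_cases h0 : r = 0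
      · refine ⟨(0, 0), ?_, by simp [h0]⟩
        rw [Finset.mem_product]
        refine ⟨by simp [E], ?_⟩
        rw [mem_rows]
        simp
      · obtain ⟨i, hi⟩ := Function.ne_iff.mp h0
        simp only [Pi.zero_apply] at hi
        -- subtract sign
        refine ⟨(Pi.single i (if 0 < r i then (1 : ℤ) else -1),
          r - Pi.single i (if 0 < r i then (1 : ℤ) else -1)), ?_, by simp⟩
        rw [Finset.mem_product]
        constructor
        · simp only [E, Finset.mem_insert, Finset.mem_image, Finset.mem_univ, true_and, Prod.exists]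
          right
          by_cases hp : 0 < r i
          · exact ⟨i, true, by simp [hp]⟩
          · exact ⟨i, false, by simp [hp]⟩
        · rw [mem_rows]
          simp only
          have h1 : ∑ j, |(r - (Pi.single i (if 0 < r i then (1 : ℤ) else -1) : Fin n → ℤ)) j| =
              ∑ j, |r j| - 1 := by
            rw [← Finset.add_sum_erase _ _ (Finset.mem_univ i),
              ← Finset.add_sum_erase Finset.univ (fun j => |r j|) (Finset.mem_univ i)]
            have h2 : ∑ j ∈ Finset.univ.erase i, |(r - (Pi.single i (if 0 < r i then (1 : ℤ) else -1) : Fin n → ℤ)) j|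
                = ∑ j ∈ Finset.univ.erase i, |r j| := by
              apply Finset.sum_congr rfl
              intro j hj
              have hji : j ≠ i := Finset.ne_of_mem_erase hj
              simp [Pi.single_apply, hji]
            rw [h2]
            have h3 : |(r - (Pi.single i (if 0 < r i then (1 : ℤ) else -1) : Fin n → ℤ)) i| = |r i| - 1 := by
              simp only [Pi.sub_apply, Pi.single_eq_same]
              by_cases hp : 0 < r i
              · simp only [hp, if_true]
                rw [abs_of_pos hp, abs_of_nonneg (by omega)]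
              · simp only [hp, if_false]
                have : r i < 0 := by omega
                rw [abs_of_neg this, abs_of_nonpos (by omega)]
                ring
            rw [h3]
            ring
          rw [h1]
          push_cast at hr
          linarith
    calc (rows n (L + 1)).card ≤ ((E ×ˢ rows n L).image (fun p => p.1 + p.2)).card :=
          Finset.card_le_card hsub
      _ ≤ (E ×ˢ rows n L).card := Finset.card_image_le
      _ = E.card * (rows n L).card := Finset.card_product _ _
      _ ≤ (2 * n + 1) * (2 * n + 1) ^ L := by gcongr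
      _ = (2 * n + 1) ^ (L + 1) := by ring

end Pool.Agent.Helper43.Mesh
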