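import Mathlib
import Pool.Agent.Helper43.Mesh1

set_option autoImplicit false

namespace Pool.Agent.Helper43.Mesh

open Filter

lemma poly_le (k K : ℕ) : ∀ᶠ N : ℕ in atTop, K * N ^ k ≤ 2 ^ N := by
  have h := tendsto_pow_const_div_const_pow_of_one_lt k (r := (2 : ℝ)) (by norm_num)
  have h1 : ∀ᶠ N : ℕ in atTop, (N : ℝ) ^ k / 2 ^ N < 1 / (K + 1) :=
    h.eventually (gt_mem_nhds (by positivity))
  filter_upwards [h1] with N hN
  rw [div_lt_div_iff₀ (by positivity) (by positivity)] at hN
  have : (K : ℝ) * (N : ℝ) ^ k ≤ 2 ^ N := by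
    have h0 : (0 : ℝ) ≤ (N : ℝ) ^ k := by positivity
    nlinarith
  exact_mod_cast this

lemma geom_bound (M : ℕ) : ∑ n ∈ Finset.Icc 1 M, ((1 : ℝ) / 4) ^ n ≤ 1 / 3 := by
  have : ∑ n ∈ Finset.Icc 1 M, ((1 : ℝ) / 4) ^ n = (1 - (1 / 4) ^ M) / 3 := by
    induction M with
    | zero => simp
    | succ M ih =>
      rw [Finset.sum_Icc_succ_top (by omega), ih]
      ring
  rw [this]
  have : (0 : ℝ) ≤ (1 / 4) ^ M := by positivity
  linarith

section

variable {ι : Type*} [Fintype ι] [DecidableEq ι]

open Classical in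
/-- assignments consistent with the coefficient matrix `R` on the rows `C` -/
noncomputable def Bad1 (q n : ℕ) (C : Finset ι) (R : ι → Fin n → ℤ) : Finset (ι → Fin q) :=
  Finset.univ.filter (fun y => ∀ v : ι → ℤ, (∀ a, a ∉ C → v a = 0) →
    (∀ i, ∑ a, v a * R a i = 0) → ∑ a, v a * (((y a : Fin q) : ℕ) : ℤ) = 0)

open Classical in
noncomputable def Bad2 (q : ℕ) (v : ι → ℤ) : Finset (ι → Fin q) :=
  Finset.univ.filter (fun y => ∑ a, v a * (((y a : Fin q) : ℕ) : ℤ) = 0)

lemma bad2_card (q : ℕ) (v : ι → ℤ) (hv : v ≠ 0) :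
    (Bad2 q v).card * q ≤ q ^ Fintype.card ι := by
  classical
  obtain ⟨a₀, ha₀⟩ := Function.ne_iff.mp hv
  simp only [Pi.zero_apply] at ha₀
  have := card_mul_pow_le q (Bad2 q v) {a₀} (by
    intro y hy y' hy' hyy
    simp only [Bad2, Finset.mem_filter, Finset.mem_univ, true_and] at hy hy'
    funext a
    by_cases ha : a = a₀
    · rw [ha]
      have h1 : ∑ a, v a * ((((y a : Fin q) : ℕ) : ℤ) - (((y' a : Fin q) : ℕ) : ℤ)) = 0 := by
        simp only [mul_sub, Finset.sum_sub_distrib, hy, hy', sub_zero]
      rw [Finset.sum_eq_single a₀] at h1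
      · rcases mul_eq_zero.mp h1 with h | h
        · exact absurd h ha₀
        · apply Fin.ext
          omega
      · intro b _ hb
        rw [hyy b (by simpa using hb)]
        simp
      · simp
    · exact hyy a (by simpa using ha))
  simpa using this

lemma bad1_card (q n : ℕ) (hq : 0 < q) (hn : 0 < n) (C : Finset ι) (hC : C.card = 2 * n)
    (R : ι → Fin n → ℤ) :
    (Bad1 q n C R).card * q ^ n ≤ q ^ Fintype.card ι := by
  classical
  obtain ⟨B, hBC, hBn, hB⟩ := exists_basis n hn C R
  have h1 := card_mul_pow_le q (Bad1 q n C R) (C \ B) (by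
    intro y hy y' hy' hyy
    simp only [Bad1, Finset.mem_filter, Finset.mem_univ, true_and] at hy hy'
    funext t
    by_cases ht : t ∈ C \ B
    · rw [Finset.mem_sdiff] at ht
      obtain ⟨v, hv1, hv2, hv3⟩ := hB t ht.1 ht.2
      have hvC : ∀ a, a ∉ C → v a = 0 := by
        intro a ha
        apply hv1 a (fun h => ha (hBC h))
        rintro rfl
        exact ha ht.1
      have e1 := hy v hvC hv3
      have e2 := hy' v hvC hv3
      have h1 : ∑ a, v a * ((((y a : Fin q) : ℕ) : ℤ) - (((y' a : Fin q) : ℕ) : ℤ)) = 0 := by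
        simp only [mul_sub, Finset.sum_sub_distrib, e1, e2, sub_zero]
      rw [Finset.sum_eq_single t] at h1
      · rcases mul_eq_zero.mp h1 with h | h
        · exact absurd h hv2
        · apply Fin.ext
          omega
      · intro b _ hb
        by_cases hbB : b ∈ B
        · rw [hyy b (by simp [hbB])]
          simp
        · rw [hv1 b hbB hb]
          simp
      · simp
    · exact hyy t ht)
  have h2 : n ≤ (C \ B).card := by
    rw [Finset.card_sdiff_of_subset hBC]
    omega
  calc (Bad1 q n C R).card * q ^ n ≤ (Bad1 q n C R).card * q ^ (C \ B).card := by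
        gcongr
    _ ≤ _ := h1

noncomputable def RS (n L : ℕ) (C : Finset ι) : Finset (ι → Fin n → ℤ) :=
  Fintype.piFinset (fun a => if a ∈ C then rows n L else {0})

lemma card_RS (n L : ℕ) (C : Finset ι) : (RS n L C).card = (rows n L).card ^ C.card := by
  unfold RS
  rw [Fintype.card_piFinset]
  have : ∀ a, (if a ∈ C then rows n L else {0}).card = if a ∈ C then (rows n L).card else 1 := by
    intro a
    split_ifs <;> simp
  simp only [this]
  rw [Finset.prod_ite]
  simp

noncomputable def VS (X : ℕ) (D : Finset ι) : Finset (ι → ℤ) :=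
  (Fintype.piFinset (fun a => if a ∈ D then Finset.Icc (-(X : ℤ)) X else {0})).filter (· ≠ 0)

lemma card_VS (X : ℕ) (D : Finset ι) : (VS X D).card ≤ (2 * X + 1) ^ D.card := by
  unfold VS
  refine (Finset.card_filter_le _ _).trans ?_
  rw [Fintype.card_piFinset]
  have : ∀ a, (if a ∈ D then Finset.Icc (-(X : ℤ)) X else {0}).card = if a ∈ D then (2 * X + 1) else 1 := by
    intro a
    split_ifs
    · simp
      omega
    · simp
  simp only [this]
  rw [Finset.prod_ite]
  simp

/-- The counting lemma. -/
lemma exists_good_aux (q L m X : ℕ) (hq : 0 < q)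
    (h1 : 4 * (Fintype.card ι + 1) ^ (2 * (L + 1)) ≤ q)
    (h2 : 4 * (Fintype.card ι * (2 * X + 1)) ^ m ≤ q)
    (h3 : m ≤ Fintype.card ι) :
    ∃ y : ι → Fin q,
      (∀ n, 0 < n → ∀ C : Finset ι, C.card = 2 * n → ∀ R : ι → Fin n → ℤ,
        (∀ a, a ∉ C → R a = 0) → (∀ a, ∑ i, |R a i| ≤ (L : ℤ)) →
        ∃ v : ι → ℤ, (∀ a, a ∉ C → v a = 0) ∧ (∀ i, ∑ a, v a * R a i = 0) ∧
          ∑ a, v a * (((y a : Fin q) : ℕ) : ℤ) ≠ 0) ∧
      (∀ v : ι → ℤ, v ≠ 0 → (Finset.univ.filter (fun a => v a ≠ 0)).card ≤ m →
        (∀ a, |v a| ≤ (X : ℤ)) → ∑ a, v a * (((y a : Fin q) : ℕ) : ℤ) ≠ 0) := by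
  classical
  set M := Fintype.card ι with hM
  set T : ℕ := q ^ M with hT
  -- the bad sets
  let U1 : Finset (ι → Fin q) := (Finset.Icc 1 M).biUnion (fun n =>
    (Finset.powersetCard (2 * n) (Finset.univ : Finset ι)).biUnion (fun C =>
      (RS n L C).biUnion (fun R => Bad1 q n C R)))
  let U2 : Finset (ι → Fin q) := (Finset.powersetCard m (Finset.univ : Finset ι)).biUnion (fun D =>
      (VS X D).biUnion (fun v => Bad2 q v))
  have hTpos : (0 : ℝ) < T := by
    have : 0 < T := Nat.pow_pos hq
    exact_mod_cast this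
  have hqpos : (0 : ℝ) < q := by exact_mod_cast hq
  have hU1 : (U1.card : ℝ) ≤ T / 3 := by
    have hn : ∀ n ∈ Finset.Icc 1 M,
        ((((Finset.powersetCard (2 * n) (Finset.univ : Finset ι)).biUnion (fun C =>
      (RS n L C).biUnion (fun R => Bad1 q n C R))).card : ℕ) : ℝ) ≤ T * (1 / 4) ^ n := by
      intro n hn
      rw [Finset.mem_Icc] at hn
      by_cases h2n : 2 * n ≤ M
      · set S := ((Finset.powersetCard (2 * n) (Finset.univ : Finset ι)).biUnion (fun C =>
          (RS n L C).biUnion (fun R => Bad1 q n C R))).card with hS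
        have hS1 : S ≤ ∑ C ∈ Finset.powersetCard (2 * n) (Finset.univ : Finset ι),
            ∑ R ∈ RS n L C, (Bad1 q n C R).card := by
          refine Finset.card_biUnion_le.trans ?_
          apply Finset.sum_le_sum
          intro C _
          exact Finset.card_biUnion_le
        have hS2 : S * q ^ n ≤ (M ^ (2 * n) * ((2 * n + 1) ^ L) ^ (2 * n)) * T := by
          calc S * q ^ n ≤ (∑ C ∈ Finset.powersetCard (2 * n) (Finset.univ : Finset ι),
            ∑ R ∈ RS n L C, (Bad1 q n C R).card) * q ^ n := by gcongr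
            _ = ∑ C ∈ Finset.powersetCard (2 * n) (Finset.univ : Finset ι),
            ∑ R ∈ RS n L C, (Bad1 q n C R).card * q ^ n := by
              rw [Finset.sum_mul]
              apply Finset.sum_congr rfl
              intro C _
              rw [Finset.sum_mul]
            _ ≤ ∑ C ∈ Finset.powersetCard (2 * n) (Finset.univ : Finset ι),
            ∑ R ∈ RS n L C, T := by
              apply Finset.sum_le_sum
              intro C hC
              apply Finset.sum_le_sum
              intro R _
              exact bad1_card q n hq (by omega) C (Finset.mem_powersetCard.mp hC).2 R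
            _ ≤ ∑ C ∈ Finset.powersetCard (2 * n) (Finset.univ : Finset ι),
              ((2 * n + 1) ^ L) ^ (2 * n) * T := by
              apply Finset.sum_le_sum
              intro C hC
              rw [Finset.sum_const, smul_eq_mul, card_RS, (Finset.mem_powersetCard.mp hC).2]
              gcongr
              exact card_rows n L
            _ = (M.choose (2 * n)) * (((2 * n + 1) ^ L) ^ (2 * n) * T) := by
              rw [Finset.sum_const, smul_eq_mul, Finset.card_powersetCard, Finset.card_univ]
            _ ≤ M ^ (2 * n) * (((2 * n + 1) ^ L) ^ (2 * n) * T) := by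
              gcongr
              exact Nat.choose_le_pow _ _
            _ = _ := by ring
        have hS3 : (4 : ℕ) ^ n * S * q ^ n ≤ q ^ n * T := by
          calc (4 : ℕ) ^ n * S * q ^ n = 4 ^ n * (S * q ^ n) := by ring
            _ ≤ 4 ^ n * ((M ^ (2 * n) * ((2 * n + 1) ^ L) ^ (2 * n)) * T) := by gcongr
            _ ≤ 4 ^ n * (((M + 1) ^ (2 * n) * ((M + 1) ^ L) ^ (2 * n)) * T) := by
              gcongr
              · omega
            _ = (4 * (M + 1) ^ (2 * (L + 1))) ^ n * T := by
              rw [mul_pow]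
              have : (M + 1) ^ (2 * n) * ((M + 1) ^ L) ^ (2 * n) = ((M + 1) ^ (2 * (L + 1))) ^ n := by
                rw [← pow_mul, ← pow_add, ← pow_mul]
                congr 1
                ring
              rw [this]
              ring
            _ ≤ q ^ n * T := by gcongr
        have hS4 : (4 : ℕ) ^ n * S ≤ T := by
          have hqn : 0 < q ^ n := Nat.pow_pos hq
          have : (4 : ℕ) ^ n * S * q ^ n ≤ T * q ^ n := by linarith
          exact Nat.le_of_mul_le_mul_right this hqn
        have hS5 : (4 : ℝ) ^ n * S ≤ T := by exact_mod_cast hS4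
        rw [one_div, inv_pow, ← div_eq_mul_inv, le_div_iff₀ (by positivity)]
        linarith
      · have : Finset.powersetCard (2 * n) (Finset.univ : Finset ι) = ∅ := by
          apply Finset.powersetCard_eq_empty.mpr
          rw [Finset.card_univ]
          omega
        rw [this]
        simp
    calc (U1.card : ℝ) ≤ ∑ n ∈ Finset.Icc 1 M, ((((Finset.powersetCard (2 * n) (Finset.univ : Finset ι)).biUnion (fun C =>
      (RS n L C).biUnion (fun R => Bad1 q n C R))).card : ℕ) : ℝ) := by
          exact_mod_cast Finset.card_biUnion_le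
      _ ≤ ∑ n ∈ Finset.Icc 1 M, (T : ℝ) * (1 / 4) ^ n := Finset.sum_le_sum hn
      _ = T * ∑ n ∈ Finset.Icc 1 M, ((1 : ℝ) / 4) ^ n := by rw [Finset.mul_sum]
      _ ≤ T * (1 / 3) := by
        gcongr
        exact geom_bound M
      _ = T / 3 := by ring
  have hU2 : (U2.card : ℝ) ≤ T / 4 := by
    have hS1 : U2.card ≤ ∑ D ∈ Finset.powersetCard m (Finset.univ : Finset ι),
        ∑ v ∈ VS X D, (Bad2 q v).card := by
      refine Finset.card_biUnion_le.trans ?_
      apply Finset.sum_le_sum
      intro C _
      exact Finset.card_biUnion_le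
    have hS2 : U2.card * q ≤ (M * (2 * X + 1)) ^ m * T := by
      calc U2.card * q ≤ (∑ D ∈ Finset.powersetCard m (Finset.univ : Finset ι),
            ∑ v ∈ VS X D, (Bad2 q v).card) * q := by gcongr
        _ = ∑ D ∈ Finset.powersetCard m (Finset.univ : Finset ι),
            ∑ v ∈ VS X D, (Bad2 q v).card * q := by
            rw [Finset.sum_mul]
            apply Finset.sum_congr rfl
            intro C _
            rw [Finset.sum_mul]
        _ ≤ ∑ D ∈ Finset.powersetCard m (Finset.univ : Finset ι), ∑ v ∈ VS X D, T := by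
            apply Finset.sum_le_sum
            intro D hD
            apply Finset.sum_le_sum
            intro v hv
            apply bad2_card q v
            simp only [VS, Finset.mem_filter] at hv
            exact hv.2
        _ ≤ ∑ D ∈ Finset.powersetCard m (Finset.univ : Finset ι), (2 * X + 1) ^ m * T := by
            apply Finset.sum_le_sum
            intro D hD
            rw [Finset.sum_const, smul_eq_mul]
            gcongr
            have := card_VS X D
            rwa [(Finset.mem_powersetCard.mp hD).2] at this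
        _ = M.choose m * ((2 * X + 1) ^ m * T) := by
            rw [Finset.sum_const, smul_eq_mul, Finset.card_powersetCard, Finset.card_univ]
        _ ≤ M ^ m * ((2 * X + 1) ^ m * T) := by
            gcongr
            exact Nat.choose_le_pow _ _
        _ = _ := by rw [mul_pow]; ring
    have hS3 : 4 * U2.card * q ≤ T * q := by
      calc 4 * U2.card * q = 4 * (U2.card * q) := by ring
        _ ≤ 4 * ((M * (2 * X + 1)) ^ m * T) := by gcongr
        _ = (4 * (M * (2 * X + 1)) ^ m) * T := by ring
        _ ≤ q * T := by gcongr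
        _ = T * q := by ring
    have hS4 : 4 * U2.card ≤ T := Nat.le_of_mul_le_mul_right hS3 hq
    have hS5 : (4 : ℝ) * U2.card ≤ T := by exact_mod_cast hS4
    linarith
  have hlt : (U1 ∪ U2).card < (Finset.univ : Finset (ι → Fin q)).card := by
    have h : ((U1 ∪ U2).card : ℝ) < T := by
      have : ((U1 ∪ U2).card : ℝ) ≤ U1.card + U2.card := by exact_mod_cast Finset.card_union_le U1 U2
      linarith
    have h' : (U1 ∪ U2).card < T := by exact_mod_cast h
    rw [Finset.card_univ, Fintype.card_fun, Fintype.card_fin]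
    exact h'
  obtain ⟨y, -, hy⟩ := Finset.exists_mem_notMem_of_card_lt_card hlt
  rw [Finset.mem_union, not_or] at hy
  refine ⟨y, ?_, ?_⟩
  · intro n hn C hC R hR0 hR
    by_contra hcon
    push Not at hcon
    apply hy.1
    simp only [U1, Finset.mem_biUnion]
    refine ⟨n, ?_, C, ?_, R, ?_, ?_⟩
    · rw [Finset.mem_Icc]
      have : C.card ≤ M := Finset.card_le_univ C
      omega
    · rw [Finset.mem_powersetCard]
      exact ⟨Finset.subset_univ _, hC⟩
    · unfold RS
      rw [Fintype.mem_piFinset]
      intro a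
      by_cases ha : a ∈ C
      · simp only [ha, if_true]
        rw [mem_rows]
        exact hR a
      · simp only [ha, if_false, Finset.mem_singleton]
        exact hR0 a ha
    · simp only [Bad1, Finset.mem_filter, Finset.mem_univ, true_and]
      exact hcon
  · intro v hv hvm hvX hsum
    apply hy.2
    simp only [U2, Finset.mem_biUnion]
    obtain ⟨D, hD1, _, hD2⟩ := Finset.exists_subsuperset_card_eq
      (Finset.subset_univ (Finset.univ.filter (fun a => v a ≠ 0))) hvm (by rw [Finset.card_univ]; exact h3)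
    refine ⟨D, ?_, v, ?_, ?_⟩
    · rw [Finset.mem_powersetCard]
      exact ⟨Finset.subset_univ _, hD2⟩
    · unfold VS
      rw [Finset.mem_filter, Fintype.mem_piFinset]
      refine ⟨?_, hv⟩
      intro a
      by_cases ha : a ∈ D
      · simp only [ha, if_true]
        rw [Finset.mem_Icc, ← abs_le]
        exact hvX a
      · simp only [ha, if_false, Finset.mem_singleton]
        by_contra hne
        apply ha
        apply hD1
        simp [hne]
    · simp only [Bad2, Finset.mem_filter, Finset.mem_univ, true_and]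
      exact hsum

end

lemma exists_good (G m X : ℕ) (hG : 0 < G) :
    ∃ N : ℕ, 0 < N ∧ ∃ y : Fin N × Fin G → Fin (2 ^ N),
      (∀ n, 0 < n → ∀ C : Finset (Fin N × Fin G), C.card = 2 * n → ∀ R : Fin N × Fin G → Fin n → ℤ,
        (∀ a, a ∉ C → R a = 0) → (∀ a, ∑ i, |R a i| ≤ ((2 ^ G : ℕ) : ℤ)) →
        ∃ v : Fin N × Fin G → ℤ, (∀ a, a ∉ C → v a = 0) ∧ (∀ i, ∑ a, v a * R a i = 0) ∧
          ∑ a, v a * (((y a : Fin (2 ^ N)) : ℕ) : ℤ) ≠ 0) ∧
      (∀ v : Fin N × Fin G → ℤ, v ≠ 0 → (Finset.univ.filter (fun a => v a ≠ 0)).card ≤ m →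
        (∀ a, |v a| ≤ (X : ℤ)) → ∑ a, v a * (((y a : Fin (2 ^ N)) : ℕ) : ℤ) ≠ 0) := by
  have e1 := poly_le (2 * (2 ^ G + 1)) (4 * (G + 1) ^ (2 * (2 ^ G + 1)))
  have e2 := poly_le m (4 * (G * (2 * X + 1)) ^ m)
  obtain ⟨N, ⟨h1, h2⟩, h3⟩ := ((e1.and e2).and (eventually_ge_atTop (m + 1))).exists
  refine ⟨N, by omega, ?_⟩
  apply exists_good_aux (ι := Fin N × Fin G) (2 ^ N) (2 ^ G) m X (by positivity)
  · rw [Fintype.card_prod, Fintype.card_fin, Fintype.card_fin]
    refine le_trans ?_ h1
    rw [mul_assoc, ← mul_pow]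
    gcongr
    nlinarith
  · rw [Fintype.card_prod, Fintype.card_fin, Fintype.card_fin]
    refine le_trans (le_of_eq ?_) h2
    rw [mul_assoc, mul_assoc, ← mul_pow]
    congr 2
    ring
  · rw [Fintype.card_prod, Fintype.card_fin, Fintype.card_fin]
    nlinarith

end Pool.Agent.Helper43.Mesh
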