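import Mathlib
import Pool.Agent.Helper43.Mesh2

set_option autoImplicit false

namespace Pool.Agent.Helper43.Mesh

lemma generic_aux {κ : Type*} [Fintype κ] [DecidableEq κ] (U : Finset (κ → ℤ))
    (hU : ∀ u ∈ U, u ≠ 0) : ∃ φ : κ → ℤ, ∀ u ∈ U, ∑ i, u i * φ i ≠ 0 := by
  classical
  induction U using Finset.induction_on with
  | empty => exact ⟨0, by simp⟩
  | insert u U hu ih =>
    obtain ⟨φ, hφ⟩ := ih (fun w hw => hU w (Finset.mem_insert_of_mem hw))
    by_cases h0 : ∑ i, u i * φ i = 0
    · set t : ℤ := 1 + ∑ w ∈ U, |∑ i, w i * u i| with ht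
      have htpos : 0 < t := by
        have : 0 ≤ ∑ w ∈ U, |∑ i, w i * u i| := Finset.sum_nonneg (fun _ _ => abs_nonneg _)
        linarith
      refine ⟨fun i => t * φ i + u i, ?_⟩
      have key : ∀ w : κ → ℤ, ∑ i, w i * (t * φ i + u i) = t * ∑ i, w i * φ i + ∑ i, w i * u i := by
        intro w
        rw [Finset.mul_sum, ← Finset.sum_add_distrib]
        apply Finset.sum_congr rfl
        intro i _
        ring
      intro w hw
      rw [key w]
      rcases Finset.mem_insert.mp hw with rfl | hwU
      · rw [h0, mul_zero, zero_add]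
        have hne := hU w (Finset.mem_insert_self _ _)
        obtain ⟨i, hi⟩ := Function.ne_iff.mp hne
        simp only [Pi.zero_apply] at hi
        have : 0 < ∑ i, w i * w i := by
          apply Finset.sum_pos'
          · intro j _
            exact mul_self_nonneg _
          · exact ⟨i, Finset.mem_univ _, mul_self_pos.mpr hi⟩
        exact ne_of_gt this
      · intro hzero
        have h1 : |∑ i, w i * u i| < t := by
          have := Finset.single_le_sum (f := fun w : κ → ℤ => |∑ i, w i * u i|)
            (fun _ _ => abs_nonneg _) hwU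
          linarith
        have h2 : t ≤ |t * ∑ i, w i * φ i| := by
          rw [abs_mul, abs_of_pos htpos]
          have : 1 ≤ |∑ i, w i * φ i| := Int.one_le_abs (hφ w hwU)
          nlinarith
        have h3 : t * ∑ i, w i * φ i = - ∑ i, w i * u i := by linarith
        rw [h3, abs_neg] at h2
        linarith
    · refine ⟨φ, ?_⟩
      intro w hw
      rcases Finset.mem_insert.mp hw with rfl | hwU
      · exact h0
      · exact hφ w hwU

lemma generic {κ : Type*} [Fintype κ] [DecidableEq κ] (W : ℕ) (U : Finset (κ → ℤ))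
    (hU : ∀ u ∈ U, u ≠ 0) : ∃ φ : κ → ℤ, ∀ u ∈ U, (W : ℤ) < |∑ i, u i * φ i| := by
  obtain ⟨φ, hφ⟩ := generic_aux U hU
  refine ⟨fun i => ((W : ℤ) + 1) * φ i, ?_⟩
  intro u hu
  have : ∑ i, u i * (((W : ℤ) + 1) * φ i) = ((W : ℤ) + 1) * ∑ i, u i * φ i := by
    rw [Finset.mul_sum]
    apply Finset.sum_congr rfl
    intro i _
    ring
  rw [this, abs_mul, abs_of_nonneg (by positivity)]
  have : 1 ≤ |∑ i, u i * φ i| := Int.one_le_abs (hφ u hu)
  nlinarith

section

variable {N G : ℕ}

/-- The vector of a relation -/
def uvec (y : Fin N × Fin G → ℕ) (v : Fin N × Fin G → ℤ) : Option (Fin N) → ℤ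
  | some i => ∑ l, v (i, l)
  | none => ∑ a, v a * (y a : ℤ)

/-- The integers of the block. -/
def elem (y : Fin N × Fin G → ℕ) (φ : Option (Fin N) → ℤ) (x : Fin N × Fin G) : ℤ :=
  φ (some x.1) + φ none * (y x : ℤ)

lemma sum_elem (y : Fin N × Fin G → ℕ) (φ : Option (Fin N) → ℤ) (v : Fin N × Fin G → ℤ) :
    ∑ x, v x * elem y φ x = ∑ k, uvec y v k * φ k := by
  rw [Fintype.sum_option]
  simp only [uvec, elem]
  have h1 : ∑ x, v x * (φ (some x.1) + φ none * (y x : ℤ)) =
      ∑ x : Fin N × Fin G, v x * φ (some x.1) + (∑ x, v x * (y x : ℤ)) * φ none := by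
    rw [Finset.sum_mul, ← Finset.sum_add_distrib]
    apply Finset.sum_congr rfl
    intro x _
    ring
  rw [h1, Fintype.sum_prod_type, add_comm]
  congr 1
  apply Finset.sum_congr rfl
  intro i _
  rw [Finset.sum_mul]

end

lemma extension (G m X W : ℕ) (hG : 0 < G) : ∃ N : ℕ, 0 < N ∧ ∃ A : Finset ℤ,
    A.card = N * G ∧
    (∃ S : Finset ℤ, S.card ≤ 16 ^ N ∧ ∀ g : Fin N → ℤ, (∀ i, g i ∈ A) → ∑ i, g i ∈ S) ∧
    (∀ n s : ℕ, 0 < n → 0 < s → ∀ k : Fin n → ℤ, ∀ C : Finset ℤ, C ⊆ A →
      (∀ a ∈ C, ∃ r : Fin n → ℤ, ∑ i, |r i| ≤ 2 ^ s ∧ a = ∑ i, k i * r i) → C.card ≤ 2 * n * s) ∧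
    (∀ v : ℤ → ℤ, (∃ a ∈ A, v a ≠ 0) → (A.filter (fun a => v a ≠ 0)).card ≤ m →
      (∀ a ∈ A, |v a| ≤ (X : ℤ)) → ∀ w : ℤ, |w| ≤ (W : ℤ) → ∑ a ∈ A, v a * a + w ≠ 0) := by
  classical
  obtain ⟨N, hN, y', hP1, hP2⟩ := exists_good G (max m 2) (max X 1) hG
  refine ⟨N, hN, ?_⟩
  let y : Fin N × Fin G → ℕ := fun x => (y' x : ℕ)
  have hylt : ∀ x, y x < 2 ^ N := fun x => (y' x).2
  change (∀ n, 0 < n → ∀ C : Finset (Fin N × Fin G), C.card = 2 * n → ∀ R : Fin N × Fin G → Fin n → ℤ,
        (∀ a, a ∉ C → R a = 0) → (∀ a, ∑ i, |R a i| ≤ ((2 ^ G : ℕ) : ℤ)) →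
        ∃ v : Fin N × Fin G → ℤ, (∀ a, a ∉ C → v a = 0) ∧ (∀ i, ∑ a, v a * R a i = 0) ∧
          ∑ a, v a * (y a : ℤ) ≠ 0) at hP1
  change (∀ v : Fin N × Fin G → ℤ, v ≠ 0 → (Finset.univ.filter (fun a => v a ≠ 0)).card ≤ max m 2 →
        (∀ a, |v a| ≤ ((max X 1 : ℕ) : ℤ)) → ∑ a, v a * (y a : ℤ) ≠ 0) at hP2
  set M := N * G with hM
  -- configurations
  have hconf : ∀ (n : ℕ) (C : Finset (Fin N × Fin G)) (R : Fin N × Fin G → Fin n → ℤ),
      ∃ u : Option (Fin N) → ℤ, u ≠ 0 ∧
        ((∃ v : Fin N × Fin G → ℤ, (∀ a, a ∉ C → v a = 0) ∧ (∀ i, ∑ a, v a * R a i = 0) ∧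
          uvec y v ≠ 0) →
         (∃ v : Fin N × Fin G → ℤ, (∀ a, a ∉ C → v a = 0) ∧ (∀ i, ∑ a, v a * R a i = 0) ∧
          u = uvec y v)) := by
    intro n C R
    by_cases h : ∃ v : Fin N × Fin G → ℤ, (∀ a, a ∉ C → v a = 0) ∧ (∀ i, ∑ a, v a * R a i = 0) ∧
          uvec y v ≠ 0
    · obtain ⟨v, h1, h2, h3⟩ := h
      exact ⟨uvec y v, h3, fun _ => ⟨v, h1, h2, rfl⟩⟩
    · refine ⟨Pi.single none 1, ?_, fun h' => absurd h' h⟩
      intro h0
      have := congrFun h0 none
      simp at this
  choose Uc hUc0 hUc using hconf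
  let U3 : Finset (Option (Fin N) → ℤ) := (Finset.range (M + 1)).biUnion (fun n =>
    (Finset.univ : Finset (Finset (Fin N × Fin G))).biUnion (fun C =>
      (Fintype.piFinset (fun _ : Fin N × Fin G => rows n (2 ^ M))).image (fun R => Uc n C R)))
  let U2 : Finset (Option (Fin N) → ℤ) :=
    ((Fintype.piFinset (fun _ : Fin N × Fin G =>
      Finset.Icc (-((max X 1 : ℕ) : ℤ)) ((max X 1 : ℕ) : ℤ))).filter
      (fun v => v ≠ 0 ∧ (Finset.univ.filter (fun a => v a ≠ 0)).card ≤ max m 2)).image (uvec y)
  have hU : ∀ u ∈ U2 ∪ U3, u ≠ 0 := by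
    intro u hu
    rw [Finset.mem_union] at hu
    rcases hu with hu | hu
    · simp only [U2, Finset.mem_image, Finset.mem_filter, Fintype.mem_piFinset, Finset.mem_Icc] at hu
      obtain ⟨v, ⟨hv1, hv2, hv3⟩, rfl⟩ := hu
      intro h0
      apply hP2 v hv2 hv3 (fun a => abs_le.mpr (hv1 a))
      exact congrFun h0 none
    · simp only [U3, Finset.mem_biUnion, Finset.mem_image] at hu
      obtain ⟨n, _, C, _, R, _, rfl⟩ := hu
      exact hUc0 n C R
  obtain ⟨φ, hφ⟩ := generic W (U2 ∪ U3) hU
  -- small relations
  have hrel : ∀ v : Fin N × Fin G → ℤ, v ≠ 0 →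
      (Finset.univ.filter (fun a => v a ≠ 0)).card ≤ max m 2 →
      (∀ a, |v a| ≤ ((max X 1 : ℕ) : ℤ)) → (W : ℤ) < |∑ x, v x * elem y φ x| := by
    intro v hv1 hv2 hv3
    rw [sum_elem]
    apply hφ
    rw [Finset.mem_union]
    left
    simp only [U2, Finset.mem_image, Finset.mem_filter, Fintype.mem_piFinset, Finset.mem_Icc]
    exact ⟨v, ⟨fun a => abs_le.mp (hv3 a), hv1, hv2⟩, rfl⟩
  have hinj : Function.Injective (elem y φ) := by
    intro x x' hxx
    by_contra hne
    let v : Fin N × Fin G → ℤ := fun a => if a = x then 1 else if a = x' then -1 else 0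
    have h1 : v ≠ 0 := by
      intro h0
      have := congrFun h0 x
      simp [v] at this
    have h2 : (Finset.univ.filter (fun a => v a ≠ 0)).card ≤ max m 2 := by
      have : Finset.univ.filter (fun a => v a ≠ 0) ⊆ {x, x'} := by
        intro a ha
        rw [Finset.mem_filter] at ha
        by_contra hcon
        simp only [Finset.mem_insert, Finset.mem_singleton, not_or] at hcon
        apply ha.2
        simp [v, hcon.1, hcon.2]
      have h3 := Finset.card_le_card this
      have h4 : ({x, x'} : Finset (Fin N × Fin G)).card ≤ 2 := Finset.card_le_two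
      exact h3.trans (h4.trans (le_max_right _ _))
    have h3 : ∀ a, |v a| ≤ ((max X 1 : ℕ) : ℤ) := by
      intro a
      have : |v a| ≤ 1 := by
        simp only [v]
        split_ifs <;> simp
      refine this.trans ?_
      exact_mod_cast le_max_right X 1
    have h4 := hrel v h1 h2 h3
    have h5 : ∑ a, v a * elem y φ a = elem y φ x - elem y φ x' := by
      have : ∀ a, v a * elem y φ a = (if a = x then elem y φ x else 0) -
          (if a = x' then elem y φ x' else 0) := by
        intro a
        simp only [v]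
        by_cases h : a = x
        · subst h
          simp [hne]
        · by_cases h' : a = x'
          · subst h'
            simp [h]
          · simp [h, h']
      simp only [this, Finset.sum_sub_distrib, Finset.sum_ite_eq', Finset.mem_univ, if_true]
    rw [h5, hxx, sub_self, abs_zero] at h4
    have : (0 : ℤ) ≤ W := by positivity
    linarith
  let A : Finset ℤ := Finset.univ.image (elem y φ)
  have hAcard : A.card = N * G := by
    rw [Finset.card_image_of_injective _ hinj, Finset.card_univ, Fintype.card_prod,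
      Fintype.card_fin, Fintype.card_fin]
  refine ⟨A, hAcard, ?_, ?_, ?_⟩
  · -- sums
    let S : Finset ℤ := Finset.univ.image (fun p : Sym (Fin N) N × Fin (N * 2 ^ N) =>
      ((p.1 : Multiset (Fin N)).map (fun i => φ (some i))).sum + φ none * ((p.2 : ℕ) : ℤ))
    refine ⟨S, ?_, ?_⟩
    · refine Finset.card_image_le.trans ?_
      rw [Finset.card_univ, Fintype.card_prod, Fintype.card_fin, Sym.card_sym_eq_choose,
        Fintype.card_fin]
      have h1 : (N + N - 1).choose N ≤ 2 ^ (N + N) := by
        refine (Nat.choose_le_two_pow _ _).trans ?_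
        exact Nat.pow_le_pow_right (by norm_num) (by omega)
      have h2 : N ≤ 2 ^ N := Nat.lt_two_pow_self.le
      calc (N + N - 1).choose N * (N * 2 ^ N) ≤ 2 ^ (N + N) * (2 ^ N * 2 ^ N) := by gcongr
        _ = 16 ^ N := by
          rw [show (16 : ℕ) = 2 ^ 4 by norm_num, ← pow_mul, ← pow_add, ← pow_add]
          congr 1
          ring
    · intro g hg
      have : ∀ i, ∃ x, elem y φ x = g i := by
        intro i
        have := hg i
        simp only [A, Finset.mem_image, Finset.mem_univ, true_and] at this
        exact this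
      choose x hx using this
      simp only [S, Finset.mem_image, Finset.mem_univ, true_and]
      refine ⟨(⟨(Finset.univ : Finset (Fin N)).val.map (fun t => (x t).1), by simp⟩,
        ⟨∑ t, y (x t), ?_⟩), ?_⟩
      · calc ∑ t, y (x t) < ∑ t : Fin N, 2 ^ N := by
              apply Finset.sum_lt_sum_of_nonempty
              · exact ⟨⟨0, hN⟩, Finset.mem_univ _⟩
              · intro t _
                exact hylt _
          _ = N * 2 ^ N := by simp
      · simp only [Sym.coe_mk, Multiset.map_map, Function.comp]
        have : ∀ i, g i = φ (some (x i).1) + φ none * (y (x i) : ℤ) := by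
          intro i
          rw [← hx i]
          rfl
        simp only [this, Finset.sum_add_distrib]
        push_cast
        rw [Finset.mul_sum]
        rfl
  · -- mesh condition of the block
    intro n s hn hs k C hCA hCr
    by_contra hlt
    push Not at hlt
    let C' : Finset (Fin N × Fin G) := Finset.univ.filter (fun x => elem y φ x ∈ C)
    have hC'card : C'.card = C.card := by
      have : C = C'.image (elem y φ) := by
        ext a
        simp only [C', Finset.mem_image, Finset.mem_filter, Finset.mem_univ, true_and]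
        constructor
        · intro ha
          have := hCA ha
          simp only [A, Finset.mem_image, Finset.mem_univ, true_and] at this
          obtain ⟨x, rfl⟩ := this
          exact ⟨x, ha, rfl⟩
        · rintro ⟨x, hx, rfl⟩
          exact hx
      conv_rhs => rw [this]
      rw [Finset.card_image_of_injective _ hinj]
    have hCM : C.card ≤ M := by
      rw [hM, ← hAcard]
      exact Finset.card_le_card hCA
    have hnM : n ≤ M := by nlinarith
    have hsM : s ≤ M := by nlinarith
    have hrow : ∀ x, ∃ r : Fin n → ℤ, (∑ i, |r i| ≤ 2 ^ s) ∧ (x ∈ C' → elem y φ x = ∑ i, k i * r i)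
        ∧ (x ∉ C' → r = 0) := by
      intro x
      by_cases hx : x ∈ C'
      · have hx' := hx
        simp only [C', Finset.mem_filter, Finset.mem_univ, true_and] at hx'
        obtain ⟨r, hr1, hr2⟩ := hCr _ hx'
        exact ⟨r, hr1, fun _ => hr2, fun h => absurd hx h⟩
      · exact ⟨0, by simp, fun h => absurd h hx, fun _ => rfl⟩
    choose R hR1 hR2 hR3 using hrow
    have hzero : ∀ v : Fin N × Fin G → ℤ, (∀ a, a ∉ C' → v a = 0) →
        (∀ i, ∑ a, v a * R a i = 0) → ∑ x, v x * elem y φ x = 0 := by
      intro v hv1 hv2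
      have h1 : ∀ x, v x * elem y φ x = ∑ i, k i * (v x * R x i) := by
        intro x
        by_cases hx : x ∈ C'
        · rw [hR2 x hx, Finset.mul_sum]
          apply Finset.sum_congr rfl
          intro i _
          ring
        · rw [hv1 x hx]
          simp
      simp only [h1]
      rw [Finset.sum_comm]
      apply Finset.sum_eq_zero
      intro i _
      rw [← Finset.mul_sum, hv2 i, mul_zero]
    have hstar : ∀ v : Fin N × Fin G → ℤ, (∀ a, a ∉ C' → v a = 0) →
        (∀ i, ∑ a, v a * R a i = 0) → uvec y v = 0 := by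
      intro v hv1 hv2
      by_contra hne
      obtain ⟨v', hv'1, hv'2, hv'3⟩ := hUc n C' R ⟨v, hv1, hv2, hne⟩
      have hmem : Uc n C' R ∈ U2 ∪ U3 := by
        rw [Finset.mem_union]
        right
        simp only [U3, Finset.mem_biUnion, Finset.mem_image]
        refine ⟨n, by simp; omega, C', Finset.mem_univ _, R, ?_, rfl⟩
        rw [Fintype.mem_piFinset]
        intro a
        rw [mem_rows]
        refine (hR1 a).trans ?_
        push_cast
        exact pow_le_pow_right₀ (by norm_num) hsM
      have h1 := hφ _ hmem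
      rw [hv'3, ← sum_elem, hzero v' hv'1 hv'2, abs_zero] at h1
      have : (0 : ℤ) ≤ W := by positivity
      linarith
    by_cases hGs : G ≤ s
    · -- many clusters
      have hI : C'.card ≤ G * (C'.image Prod.fst).card := by
        apply Finset.card_le_mul_card_image
        intro i _
        have h1 : (C'.filter (fun x => x.1 = i)).card ≤ (Finset.univ : Finset (Fin G)).card := by
          apply Finset.card_le_card_of_injOn (fun x => x.2) (by intro; simp)
          intro x hx x' hx' hxx
          simp only [Finset.coe_filter, Set.mem_ofPred_eq] at hx hx'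
          apply Prod.ext
          · rw [hx.2, hx'.2]
          · exact hxx
        simpa using h1
      have hIn : n < (C'.image Prod.fst).card := by
        by_contra hcon
        push Not at hcon
        have : C'.card ≤ s * n := by
          calc C'.card ≤ G * (C'.image Prod.fst).card := hI
            _ ≤ s * n := by gcongr
        rw [hC'card] at this
        nlinarith
      have hsec : ∀ i : Fin N, ∃ x : Fin N × Fin G, (i ∈ C'.image Prod.fst → x ∈ C' ∧ x.1 = i) := by
        intro i
        by_cases hi : i ∈ C'.image Prod.fst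
        · rw [Finset.mem_image] at hi
          obtain ⟨x, hx, hxi⟩ := hi
          exact ⟨x, fun _ => ⟨hx, hxi⟩⟩
        · exact ⟨(i, ⟨0, hG⟩), fun h => absurd h hi⟩
      choose sec hsec using hsec
      let C'' : Finset (Fin N × Fin G) := (C'.image Prod.fst).image sec
      have hC''C' : C'' ⊆ C' := by
        intro x hx
        simp only [C'', Finset.mem_image] at hx
        obtain ⟨i, hi, rfl⟩ := hx
        exact (hsec i (by simpa using hi)).1
      have hC''sec : ∀ x ∈ C'', x = sec x.1 := by
        intro x hx
        simp only [C'', Finset.mem_image] at hx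
        obtain ⟨i, hi, rfl⟩ := hx
        rw [(hsec i (by simpa using hi)).2]
      have hC''card : n < C''.card := by
        rw [Finset.card_image_of_injOn]
        · exact hIn
        · intro i hi j hj hij
          simp only [Finset.mem_coe] at hi hj
          rw [← (hsec i hi).2, ← (hsec j hj).2, hij]
      obtain ⟨B, hB1, hB2, hB3⟩ := exists_basis n hn C'' R
      obtain ⟨t, ht1, ht2⟩ : ∃ t ∈ C'', t ∉ B := by
        by_contra hcon
        push Not at hcon
        have := Finset.card_le_card hcon
        omega
      obtain ⟨v, hv1, hv2, hv3⟩ := hB3 t ht1 ht2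
      have hvC'' : ∀ a, a ∉ C'' → v a = 0 := by
        intro a ha
        apply hv1 a (fun h => ha (hB1 h))
        rintro rfl
        exact ha ht1
      have h0 := hstar v (fun a ha => hvC'' a (fun h => ha (hC''C' h))) hv3
      have h1 := congrFun h0 (some t.1)
      simp only [uvec, Pi.zero_apply] at h1
      rw [Finset.sum_eq_single t.2] at h1
      · exact hv2 h1
      · intro l _ hl
        apply hvC''
        intro hmem
        have e1 := hC''sec _ hmem
        have e2 := hC''sec _ ht1
        simp only at e1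
        rw [← e2] at e1
        apply hl
        rw [← e1]
      · simp
    · -- short meshes
      push Not at hGs
      have h2n : 2 * n ≤ C'.card := by
        rw [hC'card]
        nlinarith
      obtain ⟨C1, hC1C', hC1card⟩ := Finset.exists_subset_card_eq h2n
      obtain ⟨v, hv1, hv2, hv3⟩ := hP1 n hn C1 hC1card (fun x => if x ∈ C1 then R x else 0)
        (by intro a ha; simp [ha]) (by
          intro a
          by_cases ha : a ∈ C1
          · simp only [ha, if_true]
            refine (hR1 a).trans ?_
            push_cast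
            exact pow_le_pow_right₀ (by norm_num) hGs.le
          · simp [ha])
      have h0 := hstar v (fun a ha => hv1 a (fun h => ha (hC1C' h))) (by
        intro i
        rw [← hv2 i]
        apply Finset.sum_congr rfl
        intro a _
        by_cases ha : a ∈ C1
        · simp [ha]
        · simp [hv1 a ha])
      apply hv3
      exact congrFun h0 none
  · -- small relations
    intro v hv1 hv2 hv3 w hw
    obtain ⟨a, haA, hva⟩ := hv1
    have haA' := haA
    simp only [A, Finset.mem_image, Finset.mem_univ, true_and] at haA'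
    obtain ⟨x, rfl⟩ := haA'
    have h1 : (W : ℤ) < |∑ x, v (elem y φ x) * elem y φ x| := by
      apply hrel (fun x => v (elem y φ x))
      · intro h0
        exact hva (congrFun h0 x)
      · refine le_trans ?_ (hv2.trans (le_max_left _ _))
        apply Finset.card_le_card_of_injOn (elem y φ)
        · intro x' hx'
          simp only [Finset.coe_filter, Finset.mem_univ, true_and, Set.mem_ofPred_eq] at hx' ⊢
          exact ⟨by simp [A], hx'⟩
        · exact hinj.injOn
      · intro x'
        refine (hv3 (elem y φ x') (by simp [A])).trans ?_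
        exact_mod_cast le_max_left X 1
    have h2 : ∑ a ∈ A, v a * a = ∑ x, v (elem y φ x) * elem y φ x := by
      simp only [A]
      rw [Finset.sum_image (fun x _ x' _ h => hinj h)]
    rw [← h2] at h1
    intro h0
    have h3 : ∑ a ∈ A, v a * a = - w := by linarith
    rw [h3, abs_neg] at h1
    linarith

end Pool.Agent.Helper43.Mesh
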