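import Mathlib
import Pool.Agent.Helper43.Mesh3

set_option autoImplicit false

namespace Pool.Agent.Helper43.Mesh

/-- bound for Siegel relations -/
def Xf (b : ℕ) : ℕ := ((b + 1) * 2 ^ b) ^ b

lemma Xf_mono {a b : ℕ} (h : a ≤ b) : Xf a ≤ Xf b := by
  unfold Xf
  have h1 : (a + 1) * 2 ^ a ≤ (b + 1) * 2 ^ b := by gcongr; norm_num
  calc ((a + 1) * 2 ^ a) ^ a ≤ ((b + 1) * 2 ^ b) ^ a := by gcongr
    _ ≤ ((b + 1) * 2 ^ b) ^ b := Nat.pow_le_pow_right (by positivity) h

lemma siegel_Xf (n s b : ℕ) (hn : 0 < n) (hs : 0 < s) (hb : n * s < b)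
    (R : Fin (n + 1) → Fin n → ℤ) (hR : ∀ t, ∑ i, |R t i| ≤ 2 ^ s) :
    ∃ v : Fin (n + 1) → ℤ, v ≠ 0 ∧ (∀ t, |v t| ≤ (Xf b : ℤ)) ∧ ∀ i, ∑ t, v t * R t i = 0 := by
  obtain ⟨v, hv1, hv2, hv3⟩ := siegel n hn (2 ^ s) Nat.one_le_two_pow R (by
    intro t i
    have := (Finset.single_le_sum (f := fun i => |R t i|) (fun _ _ => abs_nonneg _) (Finset.mem_univ i)).trans (hR t)
    push_cast
    exact this)
  refine ⟨v, hv1, ?_, hv3⟩
  intro t
  refine (hv2 t).trans ?_
  have hnb : n ≤ b := by nlinarith
  have hsb : s ≤ b := by nlinarith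
  have : ((n + 1) * 2 ^ s) ^ n ≤ Xf b := by
    unfold Xf
    calc ((n + 1) * 2 ^ s) ^ n ≤ ((b + 1) * 2 ^ b) ^ n := by gcongr; norm_num
      _ ≤ ((b + 1) * 2 ^ b) ^ b := Nat.pow_le_pow_right (by positivity) hnb
  exact_mod_cast this

theorem construction : ∃ Λ : Set ℤ,
    (∀ n s : ℕ, 0 < n → 0 < s → ∀ k : Fin n → ℤ, ∀ C : Finset ℤ, (C : Set ℤ) ⊆ Λ →
      (∀ a ∈ C, ∃ r : Fin n → ℤ, ∑ i, |r i| ≤ 2 ^ s ∧ a = ∑ i, k i * r i) → C.card ≤ 4 * n * s) ∧
    (∀ j : ℕ, ∃ N : ℕ, 0 < N ∧ ∃ A : Finset ℤ, (A : Set ℤ) ⊆ Λ ∧ A.card = N * (j + 1) ∧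
      ∃ S : Finset ℤ, S.card ≤ 16 ^ N ∧ ∀ g : Fin N → ℤ, (∀ i, g i ∈ A) → ∑ i, g i ∈ S) := by
  classical
  let Wf : Finset ℤ → ℕ := fun F => Xf F.card * ∑ a ∈ F, a.natAbs
  have hext := fun (F : Finset ℤ) (j : ℕ) =>
    extension (j + 1) F.card (Xf F.card) (Wf F) (Nat.succ_pos j)
  choose Nf hNf Af hAcard hAS hAmesh hArel using hext
  let F : ℕ → Finset ℤ := fun j => Nat.rec ∅ (fun j F => F ∪ Af F j) j
  have hF0 : F 0 = ∅ := rfl
  have hFs : ∀ j, F (j + 1) = F j ∪ Af (F j) j := fun j => rfl
  have hFmono : ∀ i j, i ≤ j → F i ⊆ F j := by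
    intro i j hij
    induction hij with
    | refl => exact Finset.Subset.refl _
    | step _ ih => exact ih.trans (by rw [hFs]; exact Finset.subset_union_left)
  have hXpos : ∀ b, 1 ≤ Xf b := by
    intro b
    unfold Xf
    exact Nat.one_le_pow _ _ (by positivity)
  have hdisj : ∀ j, Disjoint (F j) (Af (F j) j) := by
    intro j
    rw [Finset.disjoint_left]
    intro a haF haA
    have h := hArel (F j) j (fun z => if z = a then 1 else 0) ⟨a, haA, by simp⟩ (by
        have h1 : ((Af (F j) j).filter (fun z => (if z = a then (1 : ℤ) else 0) ≠ 0)) ⊆ {a} := by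
          intro z hz
          rw [Finset.mem_filter] at hz
          rw [Finset.mem_singleton]
          by_contra hne
          apply hz.2
          simp [hne]
        have h2 := Finset.card_le_card h1
        rw [Finset.card_singleton] at h2
        have h3 : 0 < (F j).card := Finset.card_pos.mpr ⟨a, haF⟩
        omega)
      (by
        intro z _
        have : |(if z = a then (1 : ℤ) else 0)| ≤ 1 := by split_ifs <;> simp
        refine this.trans ?_
        exact_mod_cast hXpos _)
      (-a) (by
        rw [abs_neg, Int.abs_eq_natAbs]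
        have h1 : a.natAbs ≤ ∑ z ∈ F j, z.natAbs :=
          Finset.single_le_sum (f := fun z : ℤ => z.natAbs) (fun _ _ => Nat.zero_le _) haF
        have h2 : a.natAbs ≤ Wf (F j) := by
          simp only [Wf]
          calc a.natAbs ≤ ∑ z ∈ F j, z.natAbs := h1
            _ = 1 * ∑ z ∈ F j, z.natAbs := by ring
            _ ≤ _ := by gcongr; exact hXpos _
        exact_mod_cast h2)
    apply h
    simp [haA]
  have hcardlt : ∀ j, (F j).card < (F (j + 1)).card := by
    intro j
    rw [hFs, Finset.card_union_of_disjoint (hdisj j), hAcard]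
    have := hNf (F j) j
    have : 0 < Nf (F j) j * (j + 1) := by positivity
    omega
  have hcardge : ∀ j, j ≤ (F j).card := by
    intro j
    induction j with
    | zero => exact Nat.zero_le _
    | succ j ih =>
      have := hcardlt j
      omega
  refine ⟨{a : ℤ | ∃ j : ℕ, a ∈ F j}, ?_, ?_⟩
  · intro n s hn hs k C hC hCr
    -- the critical index
    have hex : ∃ j, n * s < (F j).card := ⟨n * s + 1, by have := hcardge (n * s + 1); omega⟩
    obtain ⟨J, hJ1, hJ2⟩ : ∃ J, (F J).card ≤ n * s ∧ n * s < (F (J + 1)).card := by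
      have h1 := Nat.find_spec hex
      have h2 : Nat.find hex ≠ 0 := by
        intro h0
        rw [h0, hF0] at h1
        simp at h1
      obtain ⟨J, hJ⟩ := Nat.exists_eq_succ_of_ne_zero h2
      refine ⟨J, ?_, ?_⟩
      · have := Nat.find_min hex (m := J) (by omega)
        omega
      · rw [hJ] at h1
        exact h1
    -- vanishing of relations beyond level J+1
    have hvan : ∀ j, ∀ v : ℤ → ℤ, (∀ a ∈ F (J + 1), v a = 0) →
        ((F j).filter (fun a => v a ≠ 0)).card ≤ (F (J + 1)).card →
        (∀ a, |v a| ≤ (Xf (F (J + 1)).card : ℤ)) → ∑ a ∈ F j, v a * a = 0 →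
        ∀ a ∈ F j, v a = 0 := by
      intro j
      induction j with
      | zero =>
        intro v _ _ _ _ a ha
        rw [hF0] at ha
        simp at ha
      | succ j ih =>
        intro v hv1 hv2 hv3 hv4
        by_cases hj : j + 1 ≤ J + 1
        · intro a ha
          exact hv1 a (hFmono _ _ hj ha)
        · have hJj : J + 1 ≤ j := by omega
          have hsub := hFmono _ _ hJj
          have hc := Finset.card_le_card hsub
          have hsplit : ∑ a ∈ F (j + 1), v a * a = ∑ a ∈ Af (F j) j, v a * a + ∑ a ∈ F j, v a * a := by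
            rw [hFs, Finset.sum_union (hdisj j), add_comm]
          have hAzero : ∀ a ∈ Af (F j) j, v a = 0 := by
            by_contra hcon
            push Not at hcon
            apply hArel (F j) j v hcon _ _ (∑ a ∈ F j, v a * a) _
            · rw [← hsplit, hv4]
            · refine le_trans ?_ (hv2.trans hc)
              apply Finset.card_le_card
              apply Finset.filter_subset_filter
              rw [hFs]
              exact Finset.subset_union_right
            · intro a _
              refine (hv3 a).trans ?_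
              exact_mod_cast Xf_mono hc
            · calc |∑ a ∈ F j, v a * a| ≤ ∑ a ∈ F j, |v a * a| := Finset.abs_sum_le_sum_abs _ _
                _ ≤ ∑ a ∈ F j, (Xf (F j).card : ℤ) * |a| := by
                  apply Finset.sum_le_sum
                  intro a _
                  rw [abs_mul]
                  apply mul_le_mul_of_nonneg_right _ (abs_nonneg _)
                  refine (hv3 a).trans ?_
                  exact_mod_cast Xf_mono hc
                _ = ((Wf (F j) : ℕ) : ℤ) := by
                  simp only [Wf]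
                  push_cast
                  rw [Finset.mul_sum]
          intro a ha
          rw [hFs, Finset.mem_union] at ha
          rcases ha with ha | ha
          · apply ih v hv1 _ hv3 _ a ha
            · refine le_trans ?_ hv2
              apply Finset.card_le_card
              apply Finset.filter_subset_filter
              rw [hFs]
              exact Finset.subset_union_left
            · rw [hsplit] at hv4
              rw [Finset.sum_eq_zero (fun a ha => by rw [hAzero a ha, zero_mul]), zero_add] at hv4
              exact hv4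
          · exact hAzero a ha
    -- the three parts
    have hpart3 : (C.filter (fun a => a ∉ F (J + 1))).card ≤ n := by
      by_contra hcon
      push Not at hcon
      obtain ⟨C2, hC2, hC2card⟩ := Finset.exists_subset_card_eq (show n + 1 ≤ _ from hcon)
      have hC2C : C2 ⊆ C := hC2.trans (Finset.filter_subset _ _)
      have hC2F : ∀ a ∈ C2, a ∉ F (J + 1) := fun a ha => (Finset.mem_filter.mp (hC2 ha)).2
      let e : Fin (n + 1) ≃ C2 := (Finset.equivFinOfCardEq hC2card).symm
      have hrow : ∀ t : Fin (n + 1), ∃ r : Fin n → ℤ, ∑ i, |r i| ≤ 2 ^ s ∧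
          ((e t).1 : ℤ) = ∑ i, k i * r i := fun t => hCr _ (hC2C (e t).2)
      choose R hR1 hR2 using hrow
      obtain ⟨v0, hv1, hv2, hv3⟩ := siegel_Xf n s (F (J + 1)).card hn hs hJ2 R hR1
      let v : ℤ → ℤ := fun a => if h : a ∈ C2 then v0 (e.symm ⟨a, h⟩) else 0
      have hve : ∀ t, v (e t).1 = v0 t := by
        intro t
        have h := (e t).2
        simp only [v, h, dif_pos]
        simp
      have hvoff : ∀ a, a ∉ C2 → v a = 0 := by
        intro a ha
        simp [v, ha]
      obtain ⟨jm, hjm⟩ : ∃ jm, C2 ⊆ F jm := by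
        have h1 : ∀ a ∈ C2, ∃ j, a ∈ F j := by
          intro a ha
          exact hC (hC2C ha)
        choose! jf hjf using h1
        refine ⟨C2.sup jf, ?_⟩
        intro a ha
        exact hFmono _ _ (Finset.le_sup (f := jf) ha) (hjf a ha)
      have hsum : ∑ a ∈ F jm, v a * a = 0 := by
        have h1 : ∑ a ∈ F jm, v a * a = ∑ a ∈ C2, v a * a := by
          symm
          apply Finset.sum_subset hjm
          intro a _ ha
          rw [hvoff a ha, zero_mul]
        rw [h1, ← Finset.sum_coe_sort C2 (fun a => v a * a), ← Equiv.sum_comp e]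
        have h2 : ∀ t, v (e t).1 * (e t).1 = ∑ i, k i * (v0 t * R t i) := by
          intro t
          rw [hve t, hR2 t, Finset.mul_sum]
          apply Finset.sum_congr rfl
          intro i _
          ring
        simp only [h2]
        rw [Finset.sum_comm]
        apply Finset.sum_eq_zero
        intro i _
        rw [← Finset.mul_sum, hv3 i, mul_zero]
      have hz := hvan jm v (by
          intro a ha
          apply hvoff
          intro hmem
          exact hC2F a hmem ha)
        (by
          have h1 : ((F jm).filter (fun a => v a ≠ 0)) ⊆ C2 := by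
            intro a ha
            rw [Finset.mem_filter] at ha
            by_contra hne
            exact ha.2 (hvoff a hne)
          have h2 := Finset.card_le_card h1
          rw [hC2card] at h2
          have : n < (F (J + 1)).card := by nlinarith
          omega)
        (by
          intro a
          by_cases ha : a ∈ C2
          · simp only [v, ha, dif_pos]
            exact hv2 _
          · rw [hvoff a ha]
            simp)
        hsum
      apply hv1
      funext t
      rw [← hve t]
      exact hz _ (hjm (e t).2)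
    have hpart2 : (C.filter (fun a => a ∈ Af (F J) J)).card ≤ 2 * n * s := by
      apply hAmesh (F J) J n s hn hs k _ (by intro a ha; exact (Finset.mem_filter.mp ha).2)
      intro a ha
      exact hCr a (Finset.mem_filter.mp ha).1
    set FJ : Finset ℤ := F J with hFJ
    have hpart1 : (C ∩ FJ).card ≤ n * s :=
      le_trans (Finset.card_le_card Finset.inter_subset_right) hJ1
    have hcover : C ⊆ (C ∩ FJ) ∪ (C.filter (fun a => a ∈ Af FJ J)) ∪
        (C.filter (fun a => a ∉ F (J + 1))) := by
      intro a ha
      simp only [Finset.mem_union, Finset.mem_filter, Finset.mem_inter, ha, true_and]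
      by_cases h : a ∈ F (J + 1)
      · left
        rw [hFs, Finset.mem_union] at h
        exact h
      · right
        exact h
    have h1 := Finset.card_le_card hcover
    have h2 := Finset.card_union_le ((C ∩ FJ) ∪ (C.filter (fun a => a ∈ Af FJ J)))
      (C.filter (fun a => a ∉ F (J + 1)))
    have h3 := Finset.card_union_le (C ∩ FJ) (C.filter (fun a => a ∈ Af FJ J))
    have h4 : n ≤ n * s := by nlinarith
    nlinarith
  · intro j
    refine ⟨Nf (F j) j, hNf _ _, Af (F j) j, ?_, hAcard _ _, hAS _ _⟩
    intro a ha
    refine ⟨j + 1, ?_⟩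
    rw [hFs]
    exact Finset.mem_union_right _ ha

end Pool.Agent.Helper43.Mesh
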