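import Mathlib

set_option autoImplicit false

namespace Pool.Agent.Helper43.Mesh

open MeasureTheory intervalIntegral

/-- the character `x ↦ exp(2 π i j x)` -/
noncomputable def ee (j : ℤ) (x : ℝ) : ℂ :=
  Complex.exp (2 * (Real.pi : ℂ) * Complex.I * (j : ℂ) * (x : ℂ))

lemma ee_continuous (j : ℤ) : Continuous (ee j) := by
  unfold ee
  fun_prop

lemma integral_ee (j : ℤ) : ∫ x in (0 : ℝ)..1, ee j x = if j = 0 then 1 else 0 := by
  by_cases hj : j = 0
  · simp [ee, hj]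
  · rw [if_neg hj]
    have hc : (2 * (Real.pi : ℂ) * Complex.I * (j : ℂ)) ≠ 0 := by
      have : (j : ℂ) ≠ 0 := by exact_mod_cast hj
      simp [Real.pi_ne_zero, this]
    simp only [ee]
    rw [integral_exp_mul_complex hc]
    have h1 : Complex.exp (2 * (Real.pi : ℂ) * Complex.I * (j : ℂ) * ((1 : ℝ) : ℂ)) = 1 := by
      rw [Complex.exp_eq_one_iff]
      exact ⟨j, by push_cast; ring⟩
    rw [h1]
    simp

lemma ee_mul_conj (a b : ℤ) (x : ℝ) : ee a x * (starRingEnd ℂ) (ee b x) = ee (a - b) x := by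
  unfold ee
  rw [← Complex.exp_conj, ← Complex.exp_add]
  congr 1
  simp only [map_mul, Complex.conj_I, Complex.conj_ofReal, map_ofNat, map_intCast]
  push_cast
  ring

lemma parseval (S : Finset ℤ) (c : ℤ → ℝ) :
    ∫ x in (0 : ℝ)..1, ‖∑ b ∈ S, (c b : ℂ) * ee b x‖ ^ 2 = ∑ b ∈ S, c b ^ 2 := by
  have h1 : ∀ x : ℝ, ((‖∑ b ∈ S, (c b : ℂ) * ee b x‖ ^ 2 : ℝ) : ℂ) =
      ∑ a ∈ S, ∑ b ∈ S, ((c a * c b : ℝ) : ℂ) * ee (a - b) x := by
    intro x
    push_cast
    rw [← Complex.mul_conj']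
    rw [map_sum, Finset.sum_mul_sum]
    apply Finset.sum_congr rfl
    intro a _
    apply Finset.sum_congr rfl
    intro b _
    rw [← ee_mul_conj]
    simp only [map_mul, Complex.conj_ofReal]
    ring
  have h2 : ((∫ x in (0 : ℝ)..1, ‖∑ b ∈ S, (c b : ℂ) * ee b x‖ ^ 2 : ℝ) : ℂ) =
      ((∑ b ∈ S, c b ^ 2 : ℝ) : ℂ) := by
    rw [← intervalIntegral.integral_ofReal]
    simp_rw [h1]
    rw [intervalIntegral.integral_finsetSum]
    · push_cast
      apply Finset.sum_congr rfl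
      intro a ha
      rw [intervalIntegral.integral_finsetSum]
      · have : ∀ b ∈ S, ∫ x in (0 : ℝ)..1, ((c a : ℂ) * (c b : ℂ)) * ee (a - b) x =
            if b = a then ((c a : ℂ) * (c b : ℂ)) else 0 := by
          intro b _
          rw [intervalIntegral.integral_const_mul, integral_ee]
          by_cases hab : b = a
          · simp [hab]
          · have : a - b ≠ 0 := sub_ne_zero.mpr (Ne.symm hab)
            simp [hab, this]
        rw [Finset.sum_congr rfl this, Finset.sum_ite_eq' S a, if_pos ha]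
        ring
      · intro b _
        apply Continuous.intervalIntegrable
        exact continuous_const.mul (ee_continuous _)
    · intro a _
      apply Continuous.intervalIntegrable
      apply continuous_finsetSum
      intro b _
      exact continuous_const.mul (ee_continuous _)
  exact_mod_cast h2

lemma ee_sum {N : ℕ} (g : Fin N → ℤ) (x : ℝ) : ∏ i, ee (g i) x = ee (∑ i, g i) x := by
  unfold ee
  rw [← Complex.exp_sum]
  congr 1
  push_cast
  rw [Finset.mul_sum, Finset.sum_mul]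

lemma pow_expand (A : Finset ℤ) (N : ℕ) (S : Finset ℤ)
    (hS : ∀ g : Fin N → ℤ, (∀ i, g i ∈ A) → ∑ i, g i ∈ S) (x : ℝ) :
    (∑ j ∈ A, ee j x) ^ N =
      ∑ b ∈ S, ((((Fintype.piFinset (fun _ : Fin N => A)).filter (fun g => ∑ i, g i = b)).card : ℝ) : ℂ)
        * ee b x := by
  classical
  have h1 : (∑ j ∈ A, ee j x) ^ N = ∏ _i : Fin N, ∑ j ∈ A, ee j x := by
    simp
  rw [h1, Finset.prod_univ_sum]
  simp only [ee_sum]
  rw [← Finset.sum_fiberwise_of_maps_to (t := S) (g := fun g : Fin N → ℤ => ∑ i, g i)]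
  · apply Finset.sum_congr rfl
    intro b _
    rw [Finset.sum_congr rfl (g := fun _ => ee b x)]
    · rw [Finset.sum_const, nsmul_eq_mul]
      push_cast
      rfl
    · intro g hg
      rw [(Finset.mem_filter.mp hg).2]
  · intro g hg
    exact hS g (fun i => by rw [Fintype.mem_piFinset] at hg; exact hg i)

lemma lower_bound (A : Finset ℤ) (N : ℕ) (hN : 0 < N) (S : Finset ℤ) (hScard : S.card ≤ 16 ^ N)
    (hS : ∀ g : Fin N → ℤ, (∀ i, g i ∈ A) → ∑ i, g i ∈ S) :
    (A.card : ℝ) / 4 ≤ (∫ x in (0 : ℝ)..1, ‖∑ j ∈ A, ee j x‖ ^ ((2 * N : ℕ) : ℝ)) ^ (1 / ((2 * N : ℕ) : ℝ)) := by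
  classical
  set r : ℤ → ℝ := fun b =>
    (((Fintype.piFinset (fun _ : Fin N => A)).filter (fun g => ∑ i, g i = b)).card : ℝ) with hr
  have h1 : ∫ x in (0 : ℝ)..1, ‖∑ j ∈ A, ee j x‖ ^ ((2 * N : ℕ) : ℝ) = ∑ b ∈ S, r b ^ 2 := by
    rw [← parseval S r]
    apply intervalIntegral.integral_congr
    intro x _
    simp only
    rw [Real.rpow_natCast, mul_comm 2 N, pow_mul, ← norm_pow, pow_expand A N S hS x]
  have h2 : ∑ b ∈ S, r b = (A.card : ℝ) ^ N := by
    have e1 : ∑ b ∈ S, ((Fintype.piFinset (fun _ : Fin N => A)).filter (fun g => ∑ i, g i = b)).card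
        = (Fintype.piFinset (fun _ : Fin N => A)).card := by
      symm
      apply Finset.card_eq_sum_card_fiberwise
      intro g hg
      rw [Finset.mem_coe, Fintype.mem_piFinset] at hg
      exact hS g hg
    rw [Fintype.card_piFinset] at e1
    simp only [Finset.prod_const, Finset.card_univ, Fintype.card_fin] at e1
    simp only [hr]
    exact_mod_cast e1
  have h3 : (∑ b ∈ S, r b) ^ 2 ≤ S.card * ∑ b ∈ S, r b ^ 2 := sq_sum_le_card_mul_sum_sq
  rw [h2] at h3
  have hnn : 0 ≤ ∑ b ∈ S, r b ^ 2 := Finset.sum_nonneg (fun _ _ => sq_nonneg _)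
  rw [h1]
  generalize (∑ b ∈ S, r b ^ 2) = Q at h3 hnn ⊢
  clear hr h1 h2
  have h4 : ((A.card : ℝ) / 4) ^ (2 * N) ≤ Q := by
    have hS16 : (S.card : ℝ) ≤ 16 ^ N := by exact_mod_cast hScard
    have h5 : ((A.card : ℝ) ^ N) ^ 2 ≤ 16 ^ N * Q :=
      h3.trans (mul_le_mul_of_nonneg_right hS16 hnn)
    rw [div_pow, div_le_iff₀ (by positivity)]
    calc (A.card : ℝ) ^ (2 * N) = ((A.card : ℝ) ^ N) ^ 2 := by rw [← pow_mul, mul_comm]
      _ ≤ 16 ^ N * Q := h5
      _ = Q * 4 ^ (2 * N) := by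
        rw [pow_mul (4 : ℝ) 2 N, show (4 : ℝ) ^ 2 = 16 from by norm_num, mul_comm]
  have hA0 : (0 : ℝ) ≤ (A.card : ℝ) / 4 := div_nonneg (Nat.cast_nonneg _) (by norm_num)
  generalize (A.card : ℝ) / 4 = q at h4 hA0 ⊢
  have h2N : ((2 * N : ℕ) : ℝ) ≠ 0 := by
    have : 2 * N ≠ 0 := by omega
    exact_mod_cast this
  have h6 : (q ^ (2 * N)) ^ (1 / ((2 * N : ℕ) : ℝ)) = q := by
    rw [← Real.rpow_natCast, ← Real.rpow_mul hA0, mul_one_div_cancel h2N, Real.rpow_one]
  calc q = (q ^ (2 * N)) ^ (1 / ((2 * N : ℕ) : ℝ)) := h6.symm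
    _ ≤ _ := Real.rpow_le_rpow (pow_nonneg hA0 _) h4 (one_div_nonneg.mpr (Nat.cast_nonneg _))

end Pool.Agent.Helper43.Mesh
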