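import Mathlib
import Pool.Agent.Helper43.Mesh5

/-!
# Random signs on a set with small sumset

If `|N A| ≤ 16^N` then every polynomial `g` with spectrum in `A` satisfies `sup |g|^(2N) ≤ 16^N ∫ |g|^(2N)` (Cauchy-Schwarz for `g^N`), and for random signs
the mean of `∫ |g|^(2N)` is at most `(44 N |A|)^N`. So some choice of signs has `sup |g| ≤ 27 √(N |A|)`.
-/

set_option autoImplicit false

namespace Pool.Agent.Helper43.Mesh

open MeasureTheory intervalIntegral

/-- the sign pattern of a subset -/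
noncomputable def sg (B : Finset ℤ) (a : ℤ) : ℝ := by
  classical
  exact if a ∈ B then 1 else -1

lemma sg_abs (B : Finset ℤ) (a : ℤ) : |sg B a| = 1 := by
  unfold sg
  split_ifs <;> simp

/-- exponential moments of sign sums -/
lemma sum_exp_sg (A : Finset ℤ) (x : ℤ → ℝ) :
    ∑ B ∈ A.powerset, Real.exp (∑ a ∈ A, sg B a * x a) ≤
      2 ^ A.card * Real.exp ((∑ a ∈ A, x a ^ 2) / 2) := by
  classical
  have h1 : ∑ B ∈ A.powerset, Real.exp (∑ a ∈ A, sg B a * x a) =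
      ∏ a ∈ A, (Real.exp (x a) + Real.exp (-x a)) := by
    rw [Finset.prod_add]
    apply Finset.sum_congr rfl
    intro B hB
    rw [Finset.mem_powerset] at hB
    rw [← Real.exp_sum, ← Real.exp_sum, ← Real.exp_add, ← Finset.sum_sdiff hB, add_comm]
    congr 2
    · apply Finset.sum_congr rfl
      intro a ha
      simp [sg, ha]
    · apply Finset.sum_congr rfl
      intro a ha
      rw [Finset.mem_sdiff] at ha
      simp [sg, ha.2]
  rw [h1]
  have h2 : ∀ a ∈ A, Real.exp (x a) + Real.exp (-x a) ≤ 2 * Real.exp (x a ^ 2 / 2) := by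
    intro a _
    have := Real.cosh_le_exp_half_sq (x a)
    rw [Real.cosh_eq] at this
    linarith
  calc ∏ a ∈ A, (Real.exp (x a) + Real.exp (-x a)) ≤ ∏ a ∈ A, (2 * Real.exp (x a ^ 2 / 2)) :=
        Finset.prod_le_prod (fun a _ => by positivity) h2
    _ = 2 ^ A.card * Real.exp ((∑ a ∈ A, x a ^ 2) / 2) := by
        rw [Finset.prod_mul_distrib, Finset.prod_const, ← Real.exp_sum, Finset.sum_div]

lemma pow_le_exp_add (y : ℝ) (N : ℕ) :
    y ^ (2 * N) / (2 * N).factorial ≤ Real.exp y + Real.exp (-y) := by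
  have h := Real.pow_div_factorial_le_exp (|y|) (abs_nonneg y) (2 * N)
  have h0 : |y| ^ (2 * N) = y ^ (2 * N) := by rw [pow_mul, sq_abs, ← pow_mul]
  rw [h0] at h
  refine h.trans ?_
  rcases abs_cases y with ⟨h1, _⟩ | ⟨h1, _⟩ <;> rw [h1]
  · linarith [Real.exp_pos (-y)]
  · linarith [Real.exp_pos y]

/-- moments of sign sums -/
lemma sum_pow_sg (A : Finset ℤ) (x : ℤ → ℝ) (N : ℕ) (hN : 0 < N) (σ : ℝ) (hσ : 0 < σ)
    (hx : ∑ a ∈ A, x a ^ 2 ≤ σ) :
    ∑ B ∈ A.powerset, (∑ a ∈ A, sg B a * x a) ^ (2 * N) ≤ 2 ^ A.card * (11 * N * σ) ^ N := by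
  have hN' : (0 : ℝ) < N := by exact_mod_cast hN
  set l : ℝ := Real.sqrt (2 * N / σ) with hl
  have hl2 : l ^ 2 = 2 * N / σ := Real.sq_sqrt (by positivity)
  have hlpos : 0 < l := Real.sqrt_pos.mpr (by positivity)
  have e : ∀ c : ℝ, c ^ 2 = 2 * N / σ → ∑ B ∈ A.powerset, Real.exp (c * ∑ a ∈ A, sg B a * x a) ≤
      2 ^ A.card * Real.exp N := by
    intro c hc
    have h := sum_exp_sg A (fun a => c * x a)
    have h1 : ∀ B : Finset ℤ, ∑ a ∈ A, sg B a * (c * x a) = c * ∑ a ∈ A, sg B a * x a := by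
      intro B
      rw [Finset.mul_sum]
      exact Finset.sum_congr rfl (fun a _ => by ring)
    simp only [h1] at h
    refine h.trans ?_
    gcongr
    simp only [mul_pow, ← Finset.mul_sum, hc]
    calc 2 * (N : ℝ) / σ * (∑ a ∈ A, x a ^ 2) / 2 ≤ 2 * (N : ℝ) / σ * σ / 2 := by gcongr
      _ = N := by field_simp
  have h1 : ∑ B ∈ A.powerset, (l * ∑ a ∈ A, sg B a * x a) ^ (2 * N) / (2 * N).factorial ≤
      2 * (2 ^ A.card * Real.exp N) := by
    calc ∑ B ∈ A.powerset, (l * ∑ a ∈ A, sg B a * x a) ^ (2 * N) / (2 * N).factorial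
        ≤ ∑ B ∈ A.powerset, (Real.exp (l * ∑ a ∈ A, sg B a * x a) +
            Real.exp (-(l * ∑ a ∈ A, sg B a * x a))) :=
          Finset.sum_le_sum (fun B _ => pow_le_exp_add _ N)
      _ = ∑ B ∈ A.powerset, Real.exp (l * ∑ a ∈ A, sg B a * x a) +
            ∑ B ∈ A.powerset, Real.exp ((-l) * ∑ a ∈ A, sg B a * x a) := by
          rw [Finset.sum_add_distrib]
          simp only [neg_mul]
      _ ≤ 2 * (2 ^ A.card * Real.exp N) := by
          have := e l hl2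
          have := e (-l) (by rw [neg_sq]; exact hl2)
          linarith
  have h2 : ∑ B ∈ A.powerset, (l * ∑ a ∈ A, sg B a * x a) ^ (2 * N) / (2 * N).factorial =
      (2 * N / σ) ^ N / (2 * N).factorial *
        ∑ B ∈ A.powerset, (∑ a ∈ A, sg B a * x a) ^ (2 * N) := by
    rw [Finset.mul_sum]
    apply Finset.sum_congr rfl
    intro B _
    rw [mul_pow, pow_mul l, hl2]
    ring
  rw [h2] at h1
  set Q := ∑ B ∈ A.powerset, (∑ a ∈ A, sg B a * x a) ^ (2 * N) with hQ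
  have hfac : (((2 * N).factorial : ℕ) : ℝ) ≤ (2 * N) ^ (2 * N) := by
    exact_mod_cast Nat.factorial_le_pow (2 * N)
  have hfpos : (0 : ℝ) < ((2 * N).factorial : ℕ) := by exact_mod_cast Nat.factorial_pos _
  have hQ0 : 0 ≤ Q := Finset.sum_nonneg (fun B _ => by rw [pow_mul]; positivity)
  have hE : Real.exp (N : ℝ) ≤ (11 / 4) ^ N := by
    rw [← mul_one (N : ℝ), Real.exp_nat_mul]
    have := Real.exp_one_lt_d9
    gcongr
    linarith
  have h3 : Q = ((2 * N / σ) ^ N / ((2 * N).factorial : ℕ) * Q) * (((2 * N).factorial : ℕ) * (σ / (2 * N)) ^ N) := by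
    rw [div_pow, div_pow]
    field_simp
  have h4 : (2 : ℝ) ≤ 2 ^ N := by
    calc (2 : ℝ) = 2 ^ 1 := (pow_one _).symm
      _ ≤ 2 ^ N := pow_le_pow_right₀ (by norm_num) hN
  rw [h3]
  calc ((2 * N / σ) ^ N / ((2 * N).factorial : ℕ) * Q) * (((2 * N).factorial : ℕ) * (σ / (2 * N)) ^ N)
      ≤ (2 * (2 ^ A.card * Real.exp N)) * ((2 * N) ^ (2 * N) * (σ / (2 * N)) ^ N) := by gcongr
    _ ≤ (2 ^ N * (2 ^ A.card * (11 / 4) ^ N)) * ((2 * N) ^ (2 * N) * (σ / (2 * N)) ^ N) := by gcongr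
    _ = 2 ^ A.card * (11 * N * σ) ^ N := by
      rw [pow_mul (2 * (N : ℝ)) 2 N]
      have : (11 * (N : ℝ) * σ) ^ N = 2 ^ N * (11 / 4) ^ N * (((2 * N) ^ 2) ^ N * (σ / (2 * N)) ^ N) := by
        rw [← mul_pow, ← mul_pow, ← mul_pow]
        congr 1
        field_simp
        ring
      rw [this]
      ring

/-- the polynomial with signs `sg B` on `A` -/
noncomputable def gg (A B : Finset ℤ) (x : ℝ) : ℂ := ∑ a ∈ A, (sg B a : ℂ) * ee a x

lemma gg_continuous (A B : Finset ℤ) : Continuous (gg A B) := by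
  unfold gg
  exact continuous_finsetSum _ (fun a _ => continuous_const.mul (ee_continuous a))

lemma ee_re (a : ℤ) (x : ℝ) : (ee a x).re = Real.cos (2 * Real.pi * a * x) := by
  unfold ee
  rw [show 2 * (Real.pi : ℂ) * Complex.I * (a : ℂ) * (x : ℂ) = ((2 * Real.pi * a * x : ℝ) : ℂ) * Complex.I by
    push_cast; ring, Complex.exp_ofReal_mul_I_re]

lemma ee_im (a : ℤ) (x : ℝ) : (ee a x).im = Real.sin (2 * Real.pi * a * x) := by
  unfold ee
  rw [show 2 * (Real.pi : ℂ) * Complex.I * (a : ℂ) * (x : ℂ) = ((2 * Real.pi * a * x : ℝ) : ℂ) * Complex.I by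
    push_cast; ring, Complex.exp_ofReal_mul_I_im]

lemma norm_gg_pow_le (A B : Finset ℤ) (x : ℝ) (N : ℕ) :
    ‖gg A B x‖ ^ (2 * N) ≤ 2 ^ N * ((∑ a ∈ A, sg B a * Real.cos (2 * Real.pi * a * x)) ^ (2 * N) +
      (∑ a ∈ A, sg B a * Real.sin (2 * Real.pi * a * x)) ^ (2 * N)) := by
  have hre : (gg A B x).re = ∑ a ∈ A, sg B a * Real.cos (2 * Real.pi * a * x) := by
    unfold gg
    rw [Complex.re_sum]
    exact Finset.sum_congr rfl (fun a _ => by rw [Complex.re_ofReal_mul, ee_re])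
  have him : (gg A B x).im = ∑ a ∈ A, sg B a * Real.sin (2 * Real.pi * a * x) := by
    unfold gg
    rw [Complex.im_sum]
    exact Finset.sum_congr rfl (fun a _ => by rw [Complex.im_ofReal_mul, ee_im])
  rw [← hre, ← him, pow_mul, ← Complex.normSq_eq_norm_sq, Complex.normSq_apply, ← sq, ← sq]
  generalize (gg A B x).re = u
  generalize (gg A B x).im = v
  rw [pow_mul u, pow_mul v]
  have hu := sq_nonneg u
  have hv := sq_nonneg v
  generalize u ^ 2 = p at hu ⊢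
  generalize v ^ 2 = q at hv ⊢
  rcases le_total p q with h | h
  · calc (p + q) ^ N ≤ (2 * q) ^ N := by gcongr; linarith
      _ = 2 ^ N * q ^ N := mul_pow _ _ _
      _ ≤ 2 ^ N * (p ^ N + q ^ N) := by
        have : 0 ≤ p ^ N := by positivity
        gcongr
        linarith
  · calc (p + q) ^ N ≤ (2 * p) ^ N := by gcongr; linarith
      _ = 2 ^ N * p ^ N := mul_pow _ _ _
      _ ≤ 2 ^ N * (p ^ N + q ^ N) := by
        have : 0 ≤ q ^ N := by positivity
        gcongr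
        linarith

/-- the mean over the signs at a point -/
lemma sum_norm_gg_pow (A : Finset ℤ) (hA : A.Nonempty) (x : ℝ) (N : ℕ) (hN : 0 < N) :
    ∑ B ∈ A.powerset, ‖gg A B x‖ ^ (2 * N) ≤ 2 ^ A.card * (44 * N * A.card) ^ N := by
  have hc : (0 : ℝ) < A.card := by exact_mod_cast hA.card_pos
  have h1 := sum_pow_sg A (fun a => Real.cos (2 * Real.pi * a * x)) N hN A.card hc (by
    calc ∑ a ∈ A, Real.cos (2 * Real.pi * a * x) ^ 2 ≤ ∑ a ∈ A, (1 : ℝ) :=
          Finset.sum_le_sum (fun a _ => Real.cos_sq_le_one _)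
      _ = A.card := by simp)
  have h2 := sum_pow_sg A (fun a => Real.sin (2 * Real.pi * a * x)) N hN A.card hc (by
    calc ∑ a ∈ A, Real.sin (2 * Real.pi * a * x) ^ 2 ≤ ∑ a ∈ A, (1 : ℝ) :=
          Finset.sum_le_sum (fun a _ => Real.sin_sq_le_one _)
      _ = A.card := by simp)
  calc ∑ B ∈ A.powerset, ‖gg A B x‖ ^ (2 * N)
      ≤ ∑ B ∈ A.powerset, 2 ^ N * ((∑ a ∈ A, sg B a * Real.cos (2 * Real.pi * a * x)) ^ (2 * N) +
      (∑ a ∈ A, sg B a * Real.sin (2 * Real.pi * a * x)) ^ (2 * N)) :=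
        Finset.sum_le_sum (fun B _ => norm_gg_pow_le A B x N)
    _ = 2 ^ N * (∑ B ∈ A.powerset, (∑ a ∈ A, sg B a * Real.cos (2 * Real.pi * a * x)) ^ (2 * N) +
      ∑ B ∈ A.powerset, (∑ a ∈ A, sg B a * Real.sin (2 * Real.pi * a * x)) ^ (2 * N)) := by
        rw [← Finset.mul_sum, Finset.sum_add_distrib]
    _ ≤ 2 ^ N * (2 ^ A.card * (11 * N * A.card) ^ N + 2 ^ A.card * (11 * N * A.card) ^ N) := by
        gcongr
    _ = 2 * (2 ^ N * (2 ^ A.card * (11 * N * A.card) ^ N)) := by ring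
    _ ≤ 2 ^ N * (2 ^ N * (2 ^ A.card * (11 * N * A.card) ^ N)) := by
        have h4 : (2 : ℝ) ≤ 2 ^ N := by
          calc (2 : ℝ) = 2 ^ 1 := (pow_one _).symm
            _ ≤ 2 ^ N := pow_le_pow_right₀ (by norm_num) hN
        gcongr
    _ = 2 ^ A.card * (44 * N * A.card) ^ N := by
        have : (44 * (N : ℝ) * A.card) ^ N = 2 ^ N * 2 ^ N * (11 * N * A.card) ^ N := by
          rw [← mul_pow, ← mul_pow]
          congr 1
          ring
        rw [this]
        ring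

/-- some choice of signs has a small `2N`-th moment -/
lemma exists_signs (A : Finset ℤ) (hA : A.Nonempty) (N : ℕ) (hN : 0 < N) :
    ∃ B ∈ A.powerset, ∫ x in (0 : ℝ)..1, ‖gg A B x‖ ^ (2 * N) ≤ (44 * N * A.card) ^ N := by
  have hint : ∀ B ∈ A.powerset, IntervalIntegrable (fun x => ‖gg A B x‖ ^ (2 * N)) volume 0 1 :=
    fun B _ => ((gg_continuous A B).norm.pow _).intervalIntegrable _ _
  have h1 : ∑ B ∈ A.powerset, ∫ x in (0 : ℝ)..1, ‖gg A B x‖ ^ (2 * N) ≤
      ∑ B ∈ A.powerset, (44 * (N : ℝ) * A.card) ^ N := by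
    rw [← intervalIntegral.integral_finsetSum hint]
    calc ∫ x in (0 : ℝ)..1, ∑ B ∈ A.powerset, ‖gg A B x‖ ^ (2 * N)
        ≤ ∫ x in (0 : ℝ)..1, (2 : ℝ) ^ A.card * (44 * N * A.card) ^ N := by
          apply intervalIntegral.integral_mono_on zero_le_one
          · exact (continuous_finsetSum _ (fun B _ => (gg_continuous A B).norm.pow _)).intervalIntegrable _ _
          · exact _root_.intervalIntegrable_const
          · intro x _
            exact sum_norm_gg_pow A hA x N hN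
      _ = 2 ^ A.card * (44 * N * A.card) ^ N := by simp
      _ = ∑ B ∈ A.powerset, (44 * (N : ℝ) * A.card) ^ N := by
          rw [Finset.sum_const, Finset.card_powerset, nsmul_eq_mul]
          push_cast
          ring
  obtain ⟨B, hB, h⟩ := Finset.exists_le_of_sum_le (Finset.powerset_nonempty A) h1
  exact ⟨B, hB, h⟩

lemma gg_pow_expand (A B : Finset ℤ) (N : ℕ) (S : Finset ℤ)
    (hS : ∀ g : Fin N → ℤ, (∀ i, g i ∈ A) → ∑ i, g i ∈ S) (x : ℝ) :
    (gg A B x) ^ N =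
      ∑ b ∈ S, ((∑ g ∈ (Fintype.piFinset (fun _ : Fin N => A)).filter (fun g => ∑ i, g i = b),
        ∏ i, sg B (g i) : ℝ) : ℂ) * ee b x := by
  classical
  have h1 : (gg A B x) ^ N = ∏ _i : Fin N, ∑ j ∈ A, (sg B j : ℂ) * ee j x := by
    simp [gg]
  rw [h1, Finset.prod_univ_sum]
  simp only [Finset.prod_mul_distrib, ee_sum]
  rw [← Finset.sum_fiberwise_of_maps_to (t := S) (g := fun g : Fin N → ℤ => ∑ i, g i)]
  · apply Finset.sum_congr rfl
    intro b _
    push_cast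
    rw [Finset.sum_mul]
    apply Finset.sum_congr rfl
    intro g hg
    rw [(Finset.mem_filter.mp hg).2]
  · intro g hg
    exact hS g (fun i => by rw [Fintype.mem_piFinset] at hg; exact hg i)

/-- Cauchy-Schwarz for `g^N` -/
lemma gg_sup_le (A B : Finset ℤ) (N : ℕ) (S : Finset ℤ)
    (hS : ∀ g : Fin N → ℤ, (∀ i, g i ∈ A) → ∑ i, g i ∈ S) (x : ℝ) :
    ‖gg A B x‖ ^ (2 * N) ≤ S.card * ∫ y in (0 : ℝ)..1, ‖gg A B y‖ ^ (2 * N) := by
  classical
  set r : ℤ → ℝ := fun b => ∑ g ∈ (Fintype.piFinset (fun _ : Fin N => A)).filter (fun g => ∑ i, g i = b),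
        ∏ i, sg B (g i) with hr
  have h0 : ∀ y, (gg A B y) ^ N = ∑ b ∈ S, (r b : ℂ) * ee b y := fun y => gg_pow_expand A B N S hS y
  have h1 : ∫ y in (0 : ℝ)..1, ‖gg A B y‖ ^ (2 * N) = ∑ b ∈ S, r b ^ 2 := by
    rw [← parseval S r]
    apply intervalIntegral.integral_congr
    intro y _
    simp only
    rw [mul_comm 2 N, pow_mul, ← norm_pow, h0]
  rw [h1]
  have h2 : ‖gg A B x‖ ^ N ≤ ∑ b ∈ S, |r b| := by
    rw [← norm_pow, h0]
    refine (norm_sum_le _ _).trans (Finset.sum_le_sum (fun b _ => ?_))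
    rw [norm_mul, Complex.norm_real, Real.norm_eq_abs]
    have : ‖ee b x‖ = 1 := by
      unfold ee
      rw [show 2 * (Real.pi : ℂ) * Complex.I * (b : ℂ) * (x : ℂ) = ((2 * Real.pi * b * x : ℝ) : ℂ) * Complex.I by
        push_cast; ring, Complex.norm_exp_ofReal_mul_I]
    rw [this, mul_one]
  calc ‖gg A B x‖ ^ (2 * N) = (‖gg A B x‖ ^ N) ^ 2 := by rw [← pow_mul, mul_comm]
    _ ≤ (∑ b ∈ S, |r b|) ^ 2 := by gcongr
    _ ≤ S.card * ∑ b ∈ S, |r b| ^ 2 := sq_sum_le_card_mul_sum_sq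
    _ = S.card * ∑ b ∈ S, r b ^ 2 := by simp only [sq_abs]

/-- a choice of signs with small supremum -/
theorem exists_small_sup (A : Finset ℤ) (hA : A.Nonempty) (N : ℕ) (hN : 0 < N) (S : Finset ℤ)
    (hScard : S.card ≤ 16 ^ N) (hS : ∀ g : Fin N → ℤ, (∀ i, g i ∈ A) → ∑ i, g i ∈ S) :
    ∃ B : Finset ℤ, ∀ x, ‖gg A B x‖ ≤ 27 * Real.sqrt (N * A.card) := by
  obtain ⟨B, _, hB⟩ := exists_signs A hA N hN
  refine ⟨B, fun x => ?_⟩
  have h1 := gg_sup_le A B N S hS x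
  have hS' : (S.card : ℝ) ≤ 16 ^ N := by exact_mod_cast hScard
  have hint0 : 0 ≤ ∫ y in (0 : ℝ)..1, ‖gg A B y‖ ^ (2 * N) :=
    intervalIntegral.integral_nonneg zero_le_one (fun y _ => by positivity)
  have h2 : ‖gg A B x‖ ^ (2 * N) ≤ (27 * Real.sqrt (N * A.card)) ^ (2 * N) := by
    calc ‖gg A B x‖ ^ (2 * N) ≤ S.card * ∫ y in (0 : ℝ)..1, ‖gg A B y‖ ^ (2 * N) := h1
      _ ≤ 16 ^ N * (44 * N * A.card) ^ N := by gcongr
      _ = (704 * (N * A.card)) ^ N := by rw [← mul_pow]; congr 1; ring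
      _ ≤ (729 * (N * A.card)) ^ N := by gcongr; norm_num
      _ = (27 * Real.sqrt (N * A.card)) ^ (2 * N) := by
        have e : (27 * Real.sqrt (N * A.card)) ^ 2 = 729 * (N * A.card) := by
          rw [mul_pow, Real.sq_sqrt (by positivity)]
          norm_num
        rw [pow_mul, e]
  exact le_of_pow_le_pow_left₀ (by omega) (by positivity) h2

end Pool.Agent.Helper43.Mesh
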